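import Pool.Agent.Q277.TC.Ti

/-!
# The correspondence for `K = N⟨y⟩` (project TC: KC)
-/

set_option autoImplicit false
set_option linter.style.haveILetI false
set_option linter.unusedSectionVars false

open scoped BigOperators Classical
open Pool.Agent.Helper884 Representation Pool.Agent.H254R3.IN Pool.Agent.Y62 Pool.Agent.Q21.CO

noncomputable section

namespace Pool.Agent.Q17.TC

/-- the two forms of `H ∩ K` -/
def ek {G : Type} [Group G] (H K : Subgroup G) : H.subgroupOf K ≃* K.comap H.subtype where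
  toFun x := ⟨⟨((x : K) : G), x.2⟩, (x : K).2⟩
  invFun x := ⟨⟨((x : H) : G), x.2⟩, (x : H).2⟩
  left_inv x := rfl
  right_inv x := rfl
  map_mul' x y := rfl

/-- a power of an element where the character does not vanish -/
theorem pow_ne {K : Type} [Group K] [Fintype K] {χ : K → ℂ} (hχ : IsIrr χ) {k : K} (hk : χ k ≠ 0)
    {s : ℕ} (hs : s.Coprime (Nat.card K)) : χ (k ^ s) ≠ 0 := by
  obtain ⟨σ, hσ⟩ := exists_sigma (N := Nat.card K) Nat.card_pos hs
  rw [← gal_char hσ hχ pow_card_eq_one']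
  intro h
  apply hk
  exact σ.injective (by rw [h, map_zero])

theorem t_KC : S_KC := by
  intro G _ _ p hp N y H P d
  have hN := d.hN
  obtain ⟨Q, hQ, D⟩ := d.dat
  obtain ⟨l, hl, ho, s, ht⟩ := d.setup
  have hyH : y ∈ H := d.hPH d.hyP
  -- from the coset to all elements
  have up : ∀ (ε : ℤ) (χ : KK N y → ℂ) (ψ : H.subgroupOf (KK N y) → ℂ), IsIrr χ → IsIrr ψ →
      (∀ k : H.subgroupOf (KK N y), l k = l ⟨y, d.y_mem⟩ → χ k = ε * ψ k) →
      Rl N (KK N y) H ε χ (fun x => ψ ((ek H (KK N y)).symm x)) := by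
    intro ε χ ψ hχ hψ hval h hk hhN
    obtain ⟨t, htp, hlt⟩ := ht ⟨h, hk⟩ hhN
    exact t_RL (KK N y) p hp.out l _ ho (H.subgroupOf (KK N y)) χ ψ hχ hψ ε hval t htp
      ⟨⟨h, hk⟩, h.2⟩ hlt
  have down : ∀ (ε : ℤ) (χ : KK N y → ℂ) (η : (KK N y).comap H.subtype → ℂ),
      Rl N (KK N y) H ε χ η → ∀ k : H.subgroupOf (KK N y), l k = l ⟨y, d.y_mem⟩ →
        χ k = ε * η (ek H (KK N y) k) := by
    intro ε χ η h k hk
    refine h ⟨((k : KK N y) : G), k.2⟩ (k : KK N y).2 ?_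
    intro hkN
    have h1 := (hl k).2 hkN
    rw [hk, hl] at h1
    exact d.hyN h1
  have movek : ∀ k : KK N y, (k : G) ∉ N → ∃ r : ℕ, r.Coprime (Nat.card (KK N y)) ∧
      l (k ^ r) = l ⟨y, d.y_mem⟩ := by
    intro k hk
    obtain ⟨t, htp, hlt⟩ := ht k hk
    obtain ⟨r, hr1, hr2⟩ := exists_exponent (n := Nat.card (KK N y)) hp.out htp Nat.card_pos
    refine ⟨r, hr2, ?_⟩
    rw [map_pow, hlt, ← pow_mul]
    conv_rhs => rw [← pow_one (l ⟨y, d.y_mem⟩)]
    rw [pow_eq_pow_iff_modEq, ho]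
    exact hr1
  have outN : ∀ k : KK N y, l k = l ⟨y, d.y_mem⟩ → (k : G) ∉ N := by
    intro k hk hkN
    have h1 := (hl k).2 hkN
    rw [hk, hl] at h1
    exact d.hyN h1
  have toH : ∀ r : ℕ, r.Coprime (Nat.card (KK N y)) →
      r.Coprime (Nat.card (H.subgroupOf (KK N y))) := fun r hr =>
    Nat.Coprime.coprime_dvd_right (Subgroup.card_subgroup_dvd_card _) hr
  have sgn : ∀ {ε : ℤ}, (ε = 1 ∨ (ε = -1 ∧ p ≠ 2)) → (ε : ℂ) ≠ 0 := by
    intro ε h
    rcases h with h | ⟨h, _⟩ <;> rw [h] <;> norm_num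
  refine ⟨?_, ?_, ?_, ?_⟩
  · rintro θ hθ ⟨k, hkN, hk⟩
    obtain ⟨r, hr, hlr⟩ := movek k hkN
    obtain ⟨ψ, hψ, hRel⟩ := s.right hθ hlr (pow_ne hθ hk hr)
    obtain ⟨k', hk', _, hψk'⟩ := s.rel_ne hθ hRel hlr (pow_ne hθ hk hr)
    obtain ⟨ε, hε, hval⟩ := hRel
    refine ⟨fun x => ψ ((ek H (KK N y)).symm x), irr_comp hψ (ek H (KK N y)).symm, ?_, ε, hε,
      up ε θ ψ hθ hψ hval⟩
    exact ⟨ek H (KK N y) k', outN k' hk', hψk'⟩
  · rintro η hη ⟨k, hkN, hk⟩
    have hψ : IsIrr (fun x => η (ek H (KK N y) x)) := irr_comp hη (ek H (KK N y))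
    obtain ⟨r, hr, hlr⟩ := movek ((ek H (KK N y)).symm k : KK N y) hkN
    have hne : (fun x => η (ek H (KK N y) x)) (((ek H (KK N y)).symm k) ^ r) ≠ 0 :=
      pow_ne hψ (by
        change η (ek H (KK N y) ((ek H (KK N y)).symm k)) ≠ 0
        rw [MulEquiv.apply_symm_apply]
        exact hk) (toH r hr)
    obtain ⟨χ, hχ, ε, hε, hval⟩ := s.left (h := ((ek H (KK N y)).symm k) ^ r) hψ (by
      rw [Subgroup.coe_pow]
      exact hlr) hne
    refine ⟨χ, hχ, ⟨_, outN ((((ek H (KK N y)).symm k) ^ r : H.subgroupOf (KK N y)) : KK N y) (by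
      rw [Subgroup.coe_pow]
      exact hlr), ?_⟩, ε, hε, ?_⟩
    · rw [hval _ (by
        rw [Subgroup.coe_pow]
        exact hlr)]
      exact mul_ne_zero (sgn hε) hne
    · have := up ε χ _ hχ hψ hval
      simpa only [MulEquiv.apply_symm_apply] using this
  · intro θ θ' η η' ε ε' hε hε' hθ hθ' hη hη' hne hR hR'
    obtain ⟨k, hkN, hk⟩ := hne
    obtain ⟨r, hr, hlr⟩ := movek k hkN
    have hψ : IsIrr (fun x => η (ek H (KK N y) x)) := irr_comp hη (ek H (KK N y))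
    have hψ' : IsIrr (fun x => η' (ek H (KK N y) x)) := irr_comp hη' (ek H (KK N y))
    have hrel : Rel p l (l ⟨y, d.y_mem⟩) (H.subgroupOf (KK N y)) θ
        (fun x => η (ek H (KK N y) x)) := ⟨ε, hε, down ε θ η hR⟩
    have hrel' : Rel p l (l ⟨y, d.y_mem⟩) (H.subgroupOf (KK N y)) θ'
        (fun x => η' (ek H (KK N y) x)) := ⟨ε', hε', down ε' θ' η' hR'⟩
    constructor
    · intro h
      rw [← h] at hrel'
      obtain ⟨k', hk', _, hψk'⟩ := s.rel_ne hθ hrel hlr (pow_ne hθ hk hr)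
      have h1 := s.right_unique hψ hψ' hrel hrel' hk' hψk'
      funext x
      have := congrFun h1 ((ek H (KK N y)).symm x)
      simpa only [MulEquiv.apply_symm_apply] using this
    · intro h
      rw [← h] at hrel'
      exact s.left_unique hθ hθ' hrel hrel' hlr (pow_ne hθ hk hr)
  · intro θ η ε hθ hη hR a b ha hb
    have hψ : IsIrr (fun x => η (ek H (KK N y) x)) := irr_comp hη (ek H (KK N y))
    refine Pool.Agent.Q1.MK.deg_cong D hθ hψ (ε := ε) ?_ ha ?_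
    · exact hR ⟨y, hyH⟩ d.y_mem d.hyN
    · rw [hb, map_one]

end Pool.Agent.Q17.TC
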