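import Pool.Agent.Q277.TC.Sq

/-!
# The correspondence is an isometry (project TC: NRM)
-/

set_option autoImplicit false
set_option linter.style.haveILetI false
set_option linter.unusedSectionVars false

open scoped BigOperators Classical
open Pool.Agent.Helper884 Representation Pool.Agent.H254R3.IN Pool.Agent.Y62

noncomputable section

namespace Pool.Agent.Q17.TC

/-- the inverse lift -/
theorem Mat.inv {G H W W' : Type} [Group G] [Group H] [AddCommGroup W] [Module ℂ W]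
    [AddCommGroup W'] [Module ℂ W'] {i : H →* G} {N : Subgroup G} [N.Normal]
    {ρ : Representation ℂ N W} {ρ' : Representation ℂ (N.comap i) W'} {u : H → (W ≃ₗ[ℂ] W)}
    {u' : H → (W' ≃ₗ[ℂ] W')} (hM : Mat i N ρ ρ' u u') (h : H) :
    ∃ c : ℂ, c ≠ 0 ∧ (∀ w, u h⁻¹ w = c • (u h).symm w) ∧ ∀ w, u' h⁻¹ w = c • (u' h).symm w := by
  obtain ⟨a, ha, h1, h2⟩ := hM.mul h⁻¹ h
  obtain ⟨b, hb, h3, h4⟩ := hM.res 1
  refine ⟨a⁻¹ * b, mul_ne_zero (inv_ne_zero ha) hb, fun w => ?_, fun w => ?_⟩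
  · have e1 := h1 ((u h).symm w)
    have e2 := h3 ((u h).symm w)
    rw [show ((⟨i ((1 : N.comap i) : H), (1 : N.comap i).2⟩ : N)) = 1 from
      Subtype.ext (map_one i), map_one] at e2
    rw [(u h).apply_symm_apply, inv_mul_cancel] at e1
    change u 1 _ = b • _ at e2
    rw [e1] at e2
    rw [mul_smul, ← show ((1 : Module.End ℂ W) ((u h).symm w)) = (u h).symm w from rfl, ← e2,
      smul_smul, inv_mul_cancel₀ ha, one_smul]
  · have e1 := h2 ((u' h).symm w)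
    have e2 := h4 ((u' h).symm w)
    rw [map_one] at e2
    rw [(u' h).apply_symm_apply, inv_mul_cancel] at e1
    change u' 1 _ = b • _ at e2
    rw [e1] at e2
    rw [mul_smul, ← show ((1 : Module.End ℂ W') ((u' h).symm w)) = (u' h).symm w from rfl, ← e2,
      smul_smul, inv_mul_cancel₀ ha, one_smul]

/-- the sum over a coset -/
theorem sum_coset {G W : Type} [Group G] [Fintype G] [AddCommGroup W] [Module ℂ W]
    [FiniteDimensional ℂ W] {N : Subgroup G} [N.Normal] {ρ : Representation ℂ N W}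
    (hρ : ρ.IsIrreducible) {g : G} {u v : W ≃ₗ[ℂ] W} (hu : Lf ρ g u) {χ₁ χ₂ : G → ℂ} {a b c : ℂ}
    (h1 : ∀ n : N, χ₁ (n * g) = a * tr ρ u n) (h2 : ∀ n : N, χ₂ (n * g⁻¹) = b * tr ρ v n)
    (hv : ∀ w, v w = c • u.symm w) :
    ∑ n : N, χ₁ (n * g) * χ₂ ((n * g : G)⁻¹) = (Nat.card N : ℂ) * (a * b * c) := by
  have hd := finrank_ne hρ
  have e1 : ∀ n : N, χ₂ ((n * g : G)⁻¹) =
      b * c * LinearMap.trace ℂ W (ρ n⁻¹ ∘ₗ (u.symm : W →ₗ[ℂ] W)) := by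
    intro n
    have e2 : ((n : G) * g)⁻¹ = ((MulAut.conjNormal g⁻¹ n⁻¹ : N) : G) * g⁻¹ := by
      rw [MulAut.conjNormal_apply, Subgroup.coe_inv]
      group
    rw [e2, h2, tr, mul_assoc]
    congr 1
    have e3 : (v : W →ₗ[ℂ] W) = c • (u.symm : W →ₗ[ℂ] W) := by
      ext w
      exact hv w
    rw [e3, LinearMap.comp_smul, map_smul, smul_eq_mul]
    congr 1
    have e4 : ρ (MulAut.conjNormal g⁻¹ n⁻¹) ∘ₗ (u.symm : W →ₗ[ℂ] W) =
        (u.symm : W →ₗ[ℂ] W) ∘ₗ ρ n⁻¹ := by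
      ext w
      change ρ (MulAut.conjNormal g⁻¹ n⁻¹) (u.symm w) = u.symm (ρ n⁻¹ w)
      rw [eq_comm, LinearEquiv.symm_apply_eq, hu, u.apply_symm_apply]
      congr 2
      apply Subtype.ext
      rw [MulAut.conjNormal_apply, MulAut.conjNormal_apply]
      group
    rw [e4, LinearMap.trace_comp_comm']
  have e5 : ∀ n : N, χ₁ (n * g) = a * LinearMap.trace ℂ W ((u : W →ₗ[ℂ] W) ∘ₗ ρ n) := by
    intro n
    rw [h1, tr, LinearMap.trace_comp_comm']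
  have e6 := t_ORT N W ρ hρ (u : W →ₗ[ℂ] W) (u.symm : W →ₗ[ℂ] W)
  have e7 : (u : W →ₗ[ℂ] W) ∘ₗ (u.symm : W →ₗ[ℂ] W) = LinearMap.id := by
    ext w
    simp
  rw [e7, LinearMap.trace_id, div_mul_cancel₀ _ hd] at e6
  calc ∑ n : N, χ₁ (n * g) * χ₂ ((n * g : G)⁻¹)
      = ∑ n : N, (a * b * c) * (LinearMap.trace ℂ W ((u : W →ₗ[ℂ] W) ∘ₗ ρ n) *
          LinearMap.trace ℂ W (ρ n⁻¹ ∘ₗ (u.symm : W →ₗ[ℂ] W))) := by
        refine Finset.sum_congr rfl fun n _ => ?_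
        rw [e1, e5]
        ring
    _ = _ := by rw [← Finset.mul_sum, e6, mul_comm]

/-- counting the pairs -/
theorem sum_pairs {G H : Type} [Group G] [Fintype G] [Group H] [Fintype H] (i : H →* G)
    (N : Subgroup G) [N.Normal] (hg : ∀ g : G, ∃ n ∈ N, ∃ h, g = n * i h) (f : G → ℂ) :
    ∑ h : H, ∑ n : N, f (n * i h) = (Nat.card (N.comap i) : ℂ) * ∑ g : G, f g := by
  have e1 : ∀ h : H, ∑ n : N, f (n * i h) = ∑ g : G, if g * (i h)⁻¹ ∈ N then f g else 0 := by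
    intro h
    rw [← Finset.sum_filter]
    refine Finset.sum_bij (fun n _ => (n : G) * i h) ?_ ?_ ?_ ?_
    · intro n _
      rw [Finset.mem_filter]
      refine ⟨Finset.mem_univ _, ?_⟩
      rw [mul_inv_cancel_right]
      exact n.2
    · intro n _ m _ hnm
      exact Subtype.ext (mul_right_cancel hnm)
    · intro g hg
      rw [Finset.mem_filter] at hg
      exact ⟨⟨g * (i h)⁻¹, hg.2⟩, Finset.mem_univ _, inv_mul_cancel_right _ _⟩
    · intro n _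
      rfl
  simp only [e1]
  rw [Finset.sum_comm, Finset.mul_sum]
  refine Finset.sum_congr rfl fun g _ => ?_
  obtain ⟨n₀, hn₀, h₀, rfl⟩ := hg g
  rw [← Finset.sum_filter, Finset.sum_const, nsmul_eq_mul]
  congr 2
  rw [Nat.card_eq_fintype_card, ← Finset.card_univ]
  symm
  refine Finset.card_bij (fun (m : N.comap i) _ => (m : H) * h₀) ?_ ?_ ?_
  · intro m _
    rw [Finset.mem_filter]
    refine ⟨Finset.mem_univ _, ?_⟩
    rw [map_mul]
    have : n₀ * i h₀ * (i (m : H) * i h₀)⁻¹ = n₀ * (i (m : H))⁻¹ := by group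
    rw [this]
    exact N.mul_mem hn₀ (N.inv_mem m.2)
  · intro m _ m' _ hm
    exact Subtype.ext (mul_right_cancel hm)
  · intro h hh
    rw [Finset.mem_filter] at hh
    refine ⟨⟨h * h₀⁻¹, ?_⟩, Finset.mem_univ _, inv_mul_cancel_right _ _⟩
    rw [Subgroup.mem_comap, map_mul, map_inv]
    have h3 := N.inv_mem (N.mul_mem (N.inv_mem hn₀) hh.2)
    have h4 : (n₀⁻¹ * (n₀ * i h₀ * (i h)⁻¹))⁻¹ = i h * (i h₀)⁻¹ := by group
    rwa [h4] at h3

theorem t_NRM : S_NRM := by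
  intro G H W W' _ _ _ _ _ _ _ _ _ _ i N _ ρ ρ' u u' hg hρ hρ' hM χ₁ χ₂ ψ₁ ψ₂ hc1 hc2
  obtain ⟨s₁, h1, h1'⟩ := hc1
  obtain ⟨s₂, h2, h2'⟩ := hc2
  choose c hc hcu hcu' using hM.inv
  have e1 : ∀ h : H, ∑ n : N, χ₁ (n * i h) * χ₂ ((n * i h : G)⁻¹) =
      (Nat.card N : ℂ) * (s₁ h * s₂ h⁻¹ * c h) := fun h =>
    sum_coset hρ (hM.lf h) (fun n => h1 n h) (fun n => by rw [← map_inv]; exact h2 n h⁻¹) (hcu h)
  have e2 : ∀ h : H, ∑ m : N.comap i, ψ₁ (m * h) * ψ₂ ((m * h : H)⁻¹) =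
      (Nat.card (N.comap i) : ℂ) * (s₁ h * s₂ h⁻¹ * c h) := fun h =>
    sum_coset hρ' (hM.lf' h) (fun n => h1' n h) (fun n => h2' n h⁻¹) (hcu' h)
  have e3 := sum_pairs i N hg (fun g => χ₁ g * χ₂ g⁻¹)
  have e4 := sum_pairs i N hg (fun _ => 1)
  have e5 : ∑ h : H, ∑ m : N.comap i, ψ₁ (m * h) * ψ₂ ((m * h : H)⁻¹) =
      (Nat.card (N.comap i) : ℂ) * ∑ h : H, ψ₁ h * ψ₂ h⁻¹ := by
    rw [Finset.sum_comm]
    have : ∀ m : N.comap i, ∑ h : H, ψ₁ (m * h) * ψ₂ ((m * h : H)⁻¹) =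
        ∑ h : H, ψ₁ h * ψ₂ h⁻¹ := fun m =>
      Fintype.sum_equiv (Equiv.mulLeft (m : H)) _ _ fun h => rfl
    simp only [this]
    rw [Finset.sum_const, Finset.card_univ, nsmul_eq_mul, Nat.card_eq_fintype_card]
  have hM0 : (Nat.card (N.comap i) : ℂ) ≠ 0 := IC.cardG_ne
  have hG0 : (Nat.card G : ℂ) ≠ 0 := IC.cardG_ne
  have hH0 : (Nat.card H : ℂ) ≠ 0 := IC.cardG_ne
  have hN0 : (Nat.card N : ℂ) ≠ 0 := IC.cardG_ne
  simp only [e1] at e3
  simp only [e2] at e5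
  rw [← Finset.mul_sum] at e3 e5
  set S : ℂ := ∑ h : H, s₁ h * s₂ h⁻¹ * c h
  have e6 : S = ∑ h : H, ψ₁ h * ψ₂ h⁻¹ := mul_left_cancel₀ hM0 e5
  simp only [Finset.sum_const, Finset.card_univ, nsmul_eq_mul, mul_one] at e4
  rw [← Nat.card_eq_fintype_card, ← Nat.card_eq_fintype_card, ← Nat.card_eq_fintype_card] at e4
  unfold IC.B
  rw [← e6]
  have e7 : (∑ g : G, χ₁ g * χ₂ g⁻¹) = (Nat.card N : ℂ) * S / (Nat.card (N.comap i) : ℂ) := by
    rw [e3]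
    field_simp
  rw [e7]
  field_simp
  linear_combination (-S) * e4

end Pool.Agent.Q17.TC
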