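import Pool.Agent.Q17.TC.Stm

/-!
# The representation on `W' ⊗ Hom_N(W, V)` (project TC: REP)
-/

set_option autoImplicit false
set_option linter.style.haveILetI false
set_option linter.unusedSectionVars false

open scoped BigOperators Classical TensorProduct
open Pool.Agent.Helper884 Representation Pool.Agent.H254R3.IN Pool.Agent.Y62

noncomputable section

namespace Pool.Agent.Q17.TC

section

variable {W V : Type} [AddCommGroup W] [Module ℂ W] [AddCommGroup V] [Module ℂ V]

/-- the map `f ↦ a f b` -/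
def cj (a : V →ₗ[ℂ] V) (b : W →ₗ[ℂ] W) : (W →ₗ[ℂ] V) →ₗ[ℂ] (W →ₗ[ℂ] V) where
  toFun f := a ∘ₗ f ∘ₗ b
  map_add' f g := by ext w; simp
  map_smul' c f := by ext w; simp

@[simp] theorem cj_apply (a : V →ₗ[ℂ] V) (b : W →ₗ[ℂ] W) (f : W →ₗ[ℂ] V) (w : W) :
    cj a b f w = a (f (b w)) := rfl

theorem trace_cj [FiniteDimensional ℂ W] [FiniteDimensional ℂ V] (a : V →ₗ[ℂ] V)
    (b : W →ₗ[ℂ] W) :
    LinearMap.trace ℂ (W →ₗ[ℂ] V) (cj a b) = LinearMap.trace ℂ V a * LinearMap.trace ℂ W b := by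
  have h : cj a b = (dualTensorHomEquiv ℂ W V).conj
      (TensorProduct.map (Module.Dual.transpose (R := ℂ) b) a) := by
    rw [LinearEquiv.conj_apply]
    have h1 : cj a b ∘ₗ ((dualTensorHomEquiv ℂ W V) : (Module.Dual ℂ W ⊗[ℂ] V) →ₗ[ℂ] (W →ₗ[ℂ] V)) =
        ((dualTensorHomEquiv ℂ W V) : (Module.Dual ℂ W ⊗[ℂ] V) →ₗ[ℂ] (W →ₗ[ℂ] V)) ∘ₗ
          (TensorProduct.map (Module.Dual.transpose (R := ℂ) b) a) := by
      apply TensorProduct.ext'
      intro l v
      ext w
      simp [Module.Dual.transpose_apply]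
    rw [← h1, LinearMap.comp_assoc]
    ext f w
    simp
  rw [h, LinearMap.trace_conj', LinearMap.trace_tensorProduct', LinearMap.trace_transpose',
    mul_comm]

end

section

variable {G W V : Type} [Group G] [AddCommGroup W] [Module ℂ W] [AddCommGroup V] [Module ℂ V]

/-- the space of intertwiners -/
def Sp {N : Subgroup G} (ρ : Representation ℂ N W) (X : Representation ℂ G V) :
    Submodule ℂ (W →ₗ[ℂ] V) where
  carrier := {f | ∀ (n : N) (w : W), X n (f w) = f (ρ n w)}
  zero_mem' := by intro n w; simp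
  add_mem' := by
    intro f g hf hg n w
    rw [LinearMap.add_apply, map_add, hf, hg]
    rfl
  smul_mem' := by
    intro c f hf n w
    rw [LinearMap.smul_apply, map_smul, hf]
    rfl

theorem mem_Sp {N : Subgroup G} {ρ : Representation ℂ N W} {X : Representation ℂ G V}
    {f : W →ₗ[ℂ] V} : f ∈ Sp ρ X ↔ ∀ (n : N) (w : W), X n (f w) = f (ρ n w) := Iff.rfl

theorem Lf.symm_apply {N : Subgroup G} [N.Normal] {ρ : Representation ℂ N W} {g : G}
    {u : W ≃ₗ[ℂ] W} (h : Lf ρ g u) (n : N) (w : W) :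
    u.symm (ρ (MulAut.conjNormal g n) w) = ρ n (u.symm w) := by
  rw [LinearEquiv.symm_apply_eq, h, u.apply_symm_apply]

/-- the action on the intertwiners -/
theorem cj_mem {N : Subgroup G} [N.Normal] {ρ : Representation ℂ N W} {X : Representation ℂ G V}
    {g : G} {u : W ≃ₗ[ℂ] W} (h : Lf ρ g u) {f : W →ₗ[ℂ] V} (hf : f ∈ Sp ρ X) :
    cj (X g) (u.symm : W →ₗ[ℂ] W) f ∈ Sp ρ X := by
  intro n w
  rw [cj_apply, cj_apply]
  obtain ⟨m, rfl⟩ : ∃ m, MulAut.conjNormal g m = n :=
    ⟨(MulAut.conjNormal g).symm n, MulEquiv.apply_symm_apply _ _⟩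
  have e1 : X ((MulAut.conjNormal g m : N) : G) (X g (f ((u.symm : W →ₗ[ℂ] W) w))) =
      X g (X m (f ((u.symm : W →ₗ[ℂ] W) w))) := by
    rw [← Module.End.mul_apply, ← Module.End.mul_apply, ← map_mul, ← map_mul,
      MulAut.conjNormal_apply]
    congr 2
    group
  rw [e1, hf]
  congr 2
  exact (h.symm_apply m w).symm

/-- the averaging map -/
def av [Fintype G] (N : Subgroup G) (ρ : Representation ℂ N W) (X : Representation ℂ G V) :
    (W →ₗ[ℂ] V) →ₗ[ℂ] (W →ₗ[ℂ] V) :=
  (Nat.card N : ℂ)⁻¹ • ∑ n : N, cj (X n) (ρ n⁻¹)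

theorem av_mem [Fintype G] {N : Subgroup G} {ρ : Representation ℂ N W} {X : Representation ℂ G V}
    (f : W →ₗ[ℂ] V) : av N ρ X f ∈ Sp ρ X := by
  intro m w
  simp only [av, LinearMap.smul_apply, LinearMap.sum_apply, map_smul, map_sum, cj_apply]
  congr 1
  refine Fintype.sum_equiv (Equiv.mulLeft m) _ _ fun n => ?_
  simp only [Equiv.coe_mulLeft, Subgroup.coe_mul, mul_inv_rev]
  rw [← Module.End.mul_apply, ← map_mul, ← Module.End.mul_apply (ρ (n⁻¹ * m⁻¹)), ← map_mul]
  congr 4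
  group

theorem av_of_mem [Fintype G] {N : Subgroup G} {ρ : Representation ℂ N W}
    {X : Representation ℂ G V} {f : W →ₗ[ℂ] V} (hf : f ∈ Sp ρ X) : av N ρ X f = f := by
  ext w
  simp only [av, LinearMap.smul_apply, LinearMap.sum_apply, cj_apply]
  have : ∀ n : N, X n (f (ρ n⁻¹ w)) = f w := by
    intro n
    rw [hf n, ← Module.End.mul_apply, ← map_mul, mul_inv_cancel, map_one]
    rfl
  simp only [this]
  rw [Finset.sum_const, Finset.card_univ, ← Nat.card_eq_fintype_card, ← Nat.cast_smul_eq_nsmul ℂ,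
    smul_smul, inv_mul_cancel₀ IC.cardG_ne, one_smul]

/-- the operator on the intertwiners -/
def So {N : Subgroup G} [N.Normal] {ρ : Representation ℂ N W} (X : Representation ℂ G V)
    {g : G} {u : W ≃ₗ[ℂ] W} (h : Lf ρ g u) : Sp ρ X →ₗ[ℂ] Sp ρ X :=
  (cj (X g) (u.symm : W →ₗ[ℂ] W)).restrict fun _ hf => cj_mem h hf

theorem So_apply {N : Subgroup G} [N.Normal] {ρ : Representation ℂ N W} (X : Representation ℂ G V)
    {g : G} {u : W ≃ₗ[ℂ] W} (h : Lf ρ g u) (f : Sp ρ X) (w : W) :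
    (So X h f : W →ₗ[ℂ] V) w = X g (f.1 (u.symm w)) := rfl

theorem trace_So [Fintype G] [FiniteDimensional ℂ W] [FiniteDimensional ℂ V] {N : Subgroup G}
    [N.Normal] {ρ : Representation ℂ N W} (X : Representation ℂ G V)
    {g : G} {u : W ≃ₗ[ℂ] W} (h : Lf ρ g u) :
    LinearMap.trace ℂ (Sp ρ X) (So X h) = (Nat.card N : ℂ)⁻¹ * ∑ n : N, X.character (n * g) *
      LinearMap.trace ℂ W ((u.symm : W →ₗ[ℂ] W) ∘ₗ ρ n⁻¹) := by
  have h1 : ∀ f, (cj (X g) (u.symm : W →ₗ[ℂ] W) ∘ₗ av N ρ X) f ∈ Sp ρ X := fun f =>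
    cj_mem h (av_mem f)
  have h2 := LinearMap.trace_restrict_eq_of_forall_mem (Sp ρ X)
    (cj (X g) (u.symm : W →ₗ[ℂ] W) ∘ₗ av N ρ X) h1
  have h3 : (cj (X g) (u.symm : W →ₗ[ℂ] W) ∘ₗ av N ρ X).restrict (fun f _ => h1 f) = So X h := by
    apply LinearMap.ext
    intro f
    apply Subtype.ext
    change cj (X g) (u.symm : W →ₗ[ℂ] W) (av N ρ X f) = cj (X g) (u.symm : W →ₗ[ℂ] W) f.1
    rw [av_of_mem f.2]
  rw [h3] at h2
  rw [h2]
  have h4 : cj (X g) (u.symm : W →ₗ[ℂ] W) ∘ₗ av N ρ X = (Nat.card N : ℂ)⁻¹ •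
      ∑ n : N, cj (X (n * g)) ((u.symm : W →ₗ[ℂ] W) ∘ₗ ρ n⁻¹) := by
    apply LinearMap.ext
    intro f
    ext w
    simp only [av, LinearMap.comp_apply, LinearMap.smul_apply, LinearMap.sum_apply, map_smul,
      map_sum, cj_apply]
    congr 1
    refine Fintype.sum_equiv (MulAut.conjNormal g : MulAut N).toEquiv _ _ fun n => ?_
    simp only [MulEquiv.toEquiv_eq_coe, MulEquiv.coe_toEquiv, MulAut.conjNormal_apply]
    have e1 : (u.symm : W →ₗ[ℂ] W) (ρ (MulAut.conjNormal g n)⁻¹ w) =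
        ρ n⁻¹ ((u.symm : W →ₗ[ℂ] W) w) := by
      rw [← map_inv]
      exact h.symm_apply n⁻¹ w
    rw [e1, ← Module.End.mul_apply, ← map_mul]
    congr 2
    group
  rw [h4, map_smul, map_sum, smul_eq_mul]
  congr 1
  exact Finset.sum_congr rfl fun n _ => trace_cj _ _

end

theorem t_REP : S_REP := by
  intro G H W W' _ _ _ _ _ _ _ _ _ _ i N _ ρ ρ' u u' hM χ hχ
  obtain ⟨V, _, _, _, X, hX, rfl⟩ := hχ
  let τ : Representation ℂ H (W' ⊗[ℂ] Sp ρ X) :=
    { toFun := fun h => TensorProduct.map (u' h : W' →ₗ[ℂ] W') (So X (hM.lf h))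
      map_one' := by
        obtain ⟨c, hc, h1, h2⟩ := hM.res 1
        apply TensorProduct.ext'
        intro w f
        rw [TensorProduct.map_tmul]
        have e1 : (u' 1 : W' →ₗ[ℂ] W') w = c • w := by
          have := h2 w
          rw [map_one] at this
          exact this
        have e2 : So X (hM.lf 1) f = c⁻¹ • f := by
          apply Subtype.ext
          ext v
          rw [So_apply]
          have e3 : (u 1).symm v = c⁻¹ • v := by
            rw [LinearEquiv.symm_apply_eq, map_smul]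
            have := h1 v
            rw [show ((⟨i ((1 : N.comap i) : H), (1 : N.comap i).2⟩ : N)) = 1 from
              Subtype.ext (map_one i), map_one] at this
            change u 1 v = c • v at this
            rw [this, smul_smul, inv_mul_cancel₀ hc, one_smul]
          rw [e3, map_one, map_smul, map_one]
          rfl
        rw [e1, e2, TensorProduct.smul_tmul, smul_smul, mul_inv_cancel₀ hc, one_smul]
        rfl
      map_mul' := by
        intro h k
        obtain ⟨c, hc, h1, h2⟩ := hM.mul h k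
        apply TensorProduct.ext'
        intro w f
        rw [TensorProduct.map_tmul, Module.End.mul_apply, TensorProduct.map_tmul,
          TensorProduct.map_tmul]
        have e1 : (u' (h * k) : W' →ₗ[ℂ] W') w =
          c • (u' h : W' →ₗ[ℂ] W') ((u' k : W' →ₗ[ℂ] W') w) := h2 w
        have e2 : So X (hM.lf (h * k)) f = c⁻¹ • So X (hM.lf h) (So X (hM.lf k) f) := by
          apply Subtype.ext
          ext v
          rw [So_apply, Submodule.coe_smul, LinearMap.smul_apply, So_apply, So_apply]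
          have e3 : (u (h * k)).symm v = c⁻¹ • (u k).symm ((u h).symm v) := by
            rw [LinearEquiv.symm_apply_eq, map_smul, h1, smul_smul, inv_mul_cancel₀ hc, one_smul,
              LinearEquiv.apply_symm_apply, LinearEquiv.apply_symm_apply]
          rw [e3, map_smul, map_smul, map_mul, map_mul, Module.End.mul_apply]
        rw [e1, e2, TensorProduct.smul_tmul, smul_smul, mul_inv_cancel₀ hc, one_smul] }
  refine ⟨W' ⊗[ℂ] Sp ρ X, inferInstance, inferInstance, inferInstance, τ, fun h => ?_⟩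
  change LinearMap.trace ℂ (W' ⊗[ℂ] Sp ρ X)
    (TensorProduct.map (u' h : W' →ₗ[ℂ] W') (So X (hM.lf h))) = _
  rw [LinearMap.trace_tensorProduct', trace_So, mul_comm]

end Pool.Agent.Q17.TC
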