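import Pool.Agent.Q277.TC.Dec

/-!
# The sum of the squares of the ramification indices (project TC: SQ)
-/

set_option autoImplicit false
set_option linter.style.haveILetI false
set_option linter.unusedSectionVars false

open scoped BigOperators Classical
open Pool.Agent.Helper884 Representation Pool.Agent.H254R3.IN Pool.Agent.Y62

noncomputable section

namespace Pool.Agent.Q17.TC

theorem Lf_one {G W : Type} [Group G] [AddCommGroup W] [Module ℂ W] {N : Subgroup G} [N.Normal]
    (ρ : Representation ℂ N W) : Lf ρ 1 (LinearEquiv.refl ℂ W) := by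
  intro n w
  rw [map_one]
  rfl

theorem irr_char {N W : Type} [Group N] [AddCommGroup W] [Module ℂ W] [FiniteDimensional ℂ W]
    {ρ : Representation ℂ N W} (hρ : ρ.IsIrreducible) : IsIrr ρ.character :=
  ⟨W, _, _, inferInstance, ρ, hρ, rfl⟩

/-- the restriction is a multiple -/
theorem restr {G W : Type} [Group G] [Fintype G] [AddCommGroup W] [Module ℂ W]
    [FiniteDimensional ℂ W] {N : Subgroup G} [N.Normal] {ρ : Representation ℂ N W}
    (hρ : ρ.IsIrreducible) (hL : ∀ g : G, ∃ u : W ≃ₗ[ℂ] W, Lf ρ g u) {χ : G → ℂ} (hχ : IsIrr χ)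
    (hO : Ov N χ ρ.character) : ∃ e : ℕ, 0 < e ∧ (∀ n : N, χ n = e * ρ.character n) ∧
      IC.B (fun n : N => χ n) ρ.character = e := by
  obtain ⟨s, hs⟩ := t_DEC G W N ρ hρ hL χ hχ hO 1 _ (Lf_one ρ)
  have hs' : ∀ n : N, χ n = s * ρ.character n := by
    intro n
    have := hs n
    rw [mul_one] at this
    exact this
  have hB : IC.B (fun n : N => χ n) ρ.character = s := by
    have h1 : (fun n : N => χ n) = s • ρ.character := by
      funext n
      rw [hs' n]
      rfl
    have h2 := IC.B_irr (chi := ρ.character) (psi := ρ.character) (irr_char hρ) (irr_char hρ)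
    rw [if_pos rfl] at h2
    rw [h1, IC.B_smul_left, h2, mul_one]
  obtain ⟨m, hm⟩ := Pool.Agent.Q21.CO.mult_nat N hχ (irr_char hρ)
  have hm' : s = m := by
    rw [← hB]
    exact hm
  refine ⟨m, ?_, ?_, ?_⟩
  · rw [Nat.pos_iff_ne_zero]
    rintro rfl
    apply hO
    rw [hB, hm', Nat.cast_zero]
  · intro n
    rw [← hm']
    exact hs' n
  · rw [← hm']
    exact hB

/-- second orthogonality -/
theorem second {G : Type} [Group G] [Fintype G] (g : G) :
    ∑ χ ∈ IC.Irr G, χ g * χ 1 = if g = 1 then (Nat.card G : ℂ) else 0 := by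
  let f : G → ℂ := fun g => if g = 1 then (Nat.card G : ℂ) else 0
  have hf : IC.IsClass f := by
    intro x y
    simp [f]
  have h1 := congrFun (IC.expand f hf) g
  change _ = f g
  rw [h1, Finset.sum_apply]
  refine Finset.sum_congr rfl fun χ _ => ?_
  rw [Pi.smul_apply, smul_eq_mul, mul_comm]
  congr 1
  rw [IC.B]
  simp only [f, ite_mul, zero_mul]
  rw [Finset.sum_ite_eq' Finset.univ (1 : G)]
  rw [if_pos (Finset.mem_univ _), inv_one, ← mul_assoc, inv_mul_cancel₀ IC.cardG_ne, one_mul]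

theorem t_SQ : S_SQ := by
  intro G W _ _ _ _ _ N _ ρ hρ hL
  refine ⟨fun χ hχ hO => ?_, ?_⟩
  · obtain ⟨e, he, h1, _⟩ := restr hρ hL hχ hO
    exact ⟨e, he, h1⟩
  have h0 : ρ.character 1 ≠ 0 := (irr_char hρ).one_ne
  have hN : (Nat.card N : ℂ) ≠ 0 := IC.cardG_ne
  have e1 : ∀ χ ∈ IC.Irr G, (if Ov N χ ρ.character then (χ 1 / ρ.character 1) ^ 2 else 0) =
      IC.B (fun n : N => χ n) ρ.character * χ 1 / ρ.character 1 := by
    intro χ hχ
    by_cases hO : Ov N χ ρ.character
    · rw [if_pos hO]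
      obtain ⟨e, he, h1, h2⟩ := restr hρ hL (IC.mem_Irr.1 hχ) hO
      have h3 := h1 1
      rw [OneMemClass.coe_one] at h3
      rw [h2, h3]
      field_simp
    · rw [if_neg hO]
      have : IC.B (fun n : N => χ n) ρ.character = 0 := by
        by_contra hcon
        exact hO hcon
      rw [this]
      simp
  rw [Finset.sum_filter, Finset.sum_congr rfl e1, ← Finset.sum_div]
  have e2 : ∑ χ ∈ IC.Irr G, IC.B (fun n : N => χ n) ρ.character * χ 1 =
      (Nat.card N : ℂ)⁻¹ * ∑ n : N, ρ.character n⁻¹ * ∑ χ ∈ IC.Irr G, χ n * χ 1 := by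
    simp only [IC.B, Finset.mul_sum, Finset.sum_mul]
    rw [Finset.sum_comm]
    refine Finset.sum_congr rfl fun n _ => Finset.sum_congr rfl fun χ _ => ?_
    ring
  rw [e2]
  simp only [second]
  have e3 : ∀ n : N, ((n : G) = 1) = (n = 1) := fun n => by
    rw [OneMemClass.coe_eq_one]
  simp only [e3, mul_ite, mul_zero]
  rw [Finset.sum_ite_eq' Finset.univ (1 : N), if_pos (Finset.mem_univ _), inv_one]
  have e4 : (Nat.card N : ℂ) * (N.index : ℂ) = (Nat.card G : ℂ) := by
    exact_mod_cast N.card_mul_index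
  rw [← e4]
  field_simp

end Pool.Agent.Q17.TC
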