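import Pool.Agent.Q277.TC.Rl

/-!
# The trivial intersection property (project TC: TI)
-/

set_option autoImplicit false
set_option linter.style.haveILetI false
set_option linter.unusedSectionVars false

open scoped BigOperators Classical
open Pool.Agent.Helper884 Representation Pool.Agent.H254R3.IN Pool.Agent.Y62 Pool.Agent.Q21.CO

noncomputable section

namespace Pool.Agent.Q17.TC

/-- the intersection of a Sylow subgroup with a normal subgroup -/
theorem sylow_inf {G : Type} [Group G] [Finite G] {p : ℕ} [Fact p.Prime] (K : Subgroup G)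
    [hK : K.Normal] (P : Sylow p G) :
    ∃ Q : Sylow p K, (Q : Subgroup K) = (P : Subgroup G).subgroupOf K := by
  have h1 : IsPGroup p ((P : Subgroup G).subgroupOf K) :=
    P.2.comap_of_injective K.subtype K.subtype_injective
  obtain ⟨Q, hQ⟩ := h1.exists_le_sylow
  refine ⟨Q, (Subgroup.eq_of_le_of_card_ge hQ ?_).symm⟩
  have h2 : IsPGroup p ((Q : Subgroup K).map K.subtype) := Q.2.map K.subtype
  obtain ⟨S, hS⟩ := h2.exists_le_sylow
  obtain ⟨g, hg⟩ := MulAction.exists_smul_eq G P S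
  have h3 : ∀ x : K, x ∈ (Q : Subgroup K) → g⁻¹ * (x : G) * g ∈ (P : Subgroup G) := by
    intro x hx
    have h4 : (x : G) ∈ (S : Subgroup G) := hS ⟨x, hx, rfl⟩
    rw [← hg, Sylow.coe_subgroup_smul] at h4
    have := (Subgroup.mem_pointwise_smul_iff_inv_smul_mem).mp h4
    rw [← map_inv, MulAut.smul_def, MulAut.conj_apply, inv_inv] at this
    exact this
  have h5 : ∀ x : K, g⁻¹ * (x : G) * g ∈ K := by
    intro x
    have := hK.conj_mem (x : G) x.2 g⁻¹
    rwa [inv_inv] at this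
  refine Nat.card_le_card_of_injective
    (fun x : (Q : Subgroup K) => (⟨⟨g⁻¹ * ((x : K) : G) * g, h5 x⟩, h3 x x.2⟩ :
      (P : Subgroup G).subgroupOf K)) ?_
  intro x y hxy
  have h6 : g⁻¹ * ((x : K) : G) * g = g⁻¹ * ((y : K) : G) * g :=
    congrArg (fun z : (P : Subgroup G).subgroupOf K => ((z : K) : G)) hxy
  have h7 : ((x : K) : G) = ((y : K) : G) := mul_left_cancel (mul_right_cancel h6)
  exact Subtype.ext (Subtype.ext h7)

section

variable {G : Type} [Group G] [Fintype G] {p : ℕ} [hp : Fact p.Prime] {N : Subgroup G} {y : G}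
  {H : Subgroup G} {P : Sylow p G} (d : TD p N y H P)

include d

theorem TD.y_mem : y ∈ KK N y := (le_sup_right : _ ≤ KK N y) (Subgroup.mem_zpowers y)

theorem TD.N_le : N ≤ KK N y := le_sup_left

theorem TD.gen (k : G) (hk : k ∈ KK N y) : ∃ n ∈ N, ∃ i : ℤ, n * y ^ i = k := by
  have := d.hN
  obtain ⟨n, hn, z, hz, h⟩ := Subgroup.mem_sup_of_normal_left.mp hk
  obtain ⟨i, rfl⟩ := Subgroup.mem_zpowers_iff.mp hz
  exact ⟨n, hn, i, h⟩

theorem TD.normal : (KK N y).Normal := by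
  have hN := d.hN
  constructor
  intro k hk g
  obtain ⟨n, hn, i, rfl⟩ := d.gen k hk
  have e : g * (n * y ^ i) * g⁻¹ = (g * n * g⁻¹) * (g * y * g⁻¹) ^ i := by
    rw [conj_zpow]
    group
  rw [e]
  refine Subgroup.mul_mem _ (d.N_le (hN.conj_mem n hn g)) (Subgroup.zpow_mem _ ?_ i)
  have e2 : g * y * g⁻¹ = (g * y * g⁻¹ * y⁻¹) * y := by group
  rw [e2]
  exact Subgroup.mul_mem _ (d.N_le (d.hcen g)) d.y_mem

theorem TD.dat : ∃ Q : Sylow p (KK N y), (Q : Subgroup (KK N y)) =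
    (P : Subgroup G).subgroupOf (KK N y) ∧
      Dat p (N.subgroupOf (KK N y)) ⟨y, d.y_mem⟩ (H.subgroupOf (KK N y)) Q := by
  have hN := d.hN
  have hK := d.normal
  obtain ⟨Q, hQ⟩ := sylow_inf (KK N y) P
  refine ⟨Q, hQ, ?_, ?_, ?_, ?_, ?_, ?_⟩
  · infer_instance
  · intro h
    apply d.hyN
    have h1 : (⟨y, d.y_mem⟩ : KK N y) ∈ N.subgroupOf (KK N y) := by
      rw [h]
      trivial
    exact h1
  · rw [eq_top_iff]
    rintro ⟨k, hk⟩ _
    obtain ⟨n, hn, i, rfl⟩ := d.gen k hk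
    have e : (⟨n * y ^ i, hk⟩ : KK N y) = ⟨n, d.N_le hn⟩ * ⟨y, d.y_mem⟩ ^ i := by
      apply Subtype.ext
      rfl
    rw [e]
    refine Subgroup.mul_mem _ ((le_sup_left : N.subgroupOf (KK N y) ≤ _) hn) ?_
    exact (le_sup_right : _ ≤ N.subgroupOf (KK N y) ⊔ _) (Subgroup.zpow_mem_zpowers _ i)
  · change _ ∈ (Q : Subgroup (KK N y))
    rw [hQ]
    exact d.hyP
  · rw [hQ]
    intro x hx
    exact d.hPH hx
  · intro x hx hxy z hz
    change x ∈ (Q : Subgroup (KK N y)) at hx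
    rw [hQ] at hx
    rw [Subgroup.mem_centralizer_singleton_iff] at hz
    have hzx : Commute (z : G) (x : G) := congrArg Subtype.val hz
    obtain ⟨n, hn, i, hi⟩ := d.gen z z.2
    have hxy' : y⁻¹ * (x : G) ∈ N := hxy
    -- `z x^{-i}` is in `N`
    have hq : (QuotientGroup.mk' N) (x : G) = (QuotientGroup.mk' N) y := by
      have h1 : (QuotientGroup.mk' N) (y⁻¹ * (x : G)) = 1 := (QuotientGroup.eq_one_iff _).2 hxy'
      rw [map_mul, map_inv, inv_mul_eq_one] at h1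
      exact h1.symm
    have h2 : (z : G) * (x : G) ^ (-i) ∈ N := by
      rw [← QuotientGroup.eq_one_iff (N := N)]
      change (QuotientGroup.mk' N) _ = 1
      rw [map_mul, map_zpow, hq, ← hi, map_mul, map_zpow]
      have h3 : (QuotientGroup.mk' N) n = 1 := (QuotientGroup.eq_one_iff _).2 hn
      rw [h3, one_mul, ← zpow_add, add_neg_cancel, zpow_zero]
    have h4 : Commute ((z : G) * (x : G) ^ (-i)) (x : G) :=
      Commute.mul_left hzx ((Commute.refl (x : G)).zpow_left _)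
    have h5 := d.hC x hx hxy' _ h2 h4
    have h6 : (x : G) ∈ H := d.hPH hx
    have h7 := H.mul_mem h5 (H.zpow_mem h6 i)
    rw [mul_assoc, ← zpow_add, neg_add_cancel, zpow_zero, mul_one] at h7
    exact h7

/-- the linear character of `K` and its setup -/
theorem TD.setup : ∃ l : KK N y →* ℂˣ, (∀ k : KK N y, l k = 1 ↔ (k : G) ∈ N) ∧
    orderOf (l ⟨y, d.y_mem⟩) = p ∧
    Setup p 1 l (l ⟨y, d.y_mem⟩) (H.subgroupOf (KK N y)) ∧
    ∀ k : KK N y, (k : G) ∉ N → ∃ t : ℕ, ¬ p ∣ t ∧ l k = l ⟨y, d.y_mem⟩ ^ t := by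
  obtain ⟨Q, hQ, D⟩ := d.dat
  obtain ⟨l, hl⟩ := D.exists_lin
  obtain ⟨q, s⟩ := D.setup hl
  have hl' : ∀ k : KK N y, l k = 1 ↔ (k : G) ∈ N := hl
  have ho : orderOf (l ⟨y, d.y_mem⟩) = p := by
    refine orderOf_eq_prime ?_ ?_
    · rw [← map_pow, hl']
      exact d.hyp
    · rw [Ne, hl']
      exact d.hyN
  have hq : q = 1 := by
    have h1 := s.hc
    rw [ho] at h1
    have := hp.out.pos
    exact Nat.eq_of_mul_eq_mul_left this (by rw [mul_one]; exact h1.symm)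
  subst hq
  refine ⟨l, hl', ho, s, fun k hk => ?_⟩
  obtain ⟨n, hn, i, hi⟩ := d.gen k k.2
  have e : k = ⟨n, d.N_le hn⟩ * ⟨y, d.y_mem⟩ ^ i := Subtype.ext hi.symm
  have h1 : l k = l ⟨y, d.y_mem⟩ ^ i := by
    rw [e, map_mul, (hl' ⟨n, d.N_le hn⟩).2 hn, one_mul, map_zpow]
  have hp0 : (p : ℤ) ≠ 0 := by exact_mod_cast hp.out.ne_zero
  have h2 : l k = l ⟨y, d.y_mem⟩ ^ (i % p).toNat := by
    rw [h1, ← zpow_natCast, Int.toNat_of_nonneg (Int.emod_nonneg i hp0)]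
    conv_lhs => rw [← zpow_mod_orderOf, ho]
  refine ⟨(i % p).toNat, fun hd => hk ?_, h2⟩
  rw [← hl', h2]
  rw [← orderOf_dvd_iff_pow_eq_one, ho]
  exact hd

end

theorem t_TI : S_TI := by
  intro G _ _ p hp N y H P d
  have hN := d.hN
  obtain ⟨l, hl, ho, s, ht⟩ := d.setup
  constructor
  · intro g h hH hK hhN hg
    obtain ⟨n, hn, h', hh', rfl⟩ := d.hNH g
    obtain ⟨t, htp, hlt⟩ := ht ⟨h, hK⟩ hhN
    have h1 := s.ti_pow htp
    refine H.mul_mem ?_ hh'
    have h2 := h1.ti ⟨n, d.N_le hn⟩ ⟨h, hK⟩ hH hlt (by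
      change n⁻¹ * h * n ∈ H
      have h3 := H.mul_mem (H.mul_mem hh' hg) (H.inv_mem hh')
      have h4 : h' * ((n * h')⁻¹ * h * (n * h')) * h'⁻¹ = n⁻¹ * h * n := by group
      rwa [h4] at h3)
    exact h2
  · intro k hk hkN
    obtain ⟨t, htp, hlt⟩ := ht ⟨k, hk⟩ hkN
    obtain ⟨a, ha⟩ := (s.ti_pow htp).cover ⟨k, hk⟩ hlt
    obtain ⟨n, hn, i, hi⟩ := d.gen a a.2
    refine ⟨n, hn, ?_⟩
    have h1 : ((a : G))⁻¹ * k * (a : G) ∈ H := ha
    rw [← hi] at h1
    have h2 : y ∈ H := d.hPH d.hyP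
    have h3 := H.mul_mem (H.mul_mem (H.zpow_mem h2 i) h1) (H.inv_mem (H.zpow_mem h2 i))
    have h4 : y ^ i * ((n * y ^ i)⁻¹ * k * (n * y ^ i)) * (y ^ i)⁻¹ = n⁻¹ * k * n := by group
    rwa [h4] at h3

end Pool.Agent.Q17.TC
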