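import Pool.Agent.Q277.TC.Nrm
import Pool.Agent.H977R3.CM.Aut

/-!
# Passage from one coset to its powers (project TC: RL)
-/

set_option autoImplicit false
set_option linter.style.haveILetI false
set_option linter.unusedSectionVars false

open scoped BigOperators Classical
open Pool.Agent.Helper884 Representation Pool.Agent.H254R3.IN Pool.Agent.Y62

noncomputable section

namespace Pool.Agent.Q17.TC

/-- power maps prime to the group order are induced by field automorphisms -/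
theorem exists_sigma {N k : ℕ} (hN : 0 < N) (hk : k.Coprime N) :
    ∃ σ : ℂ ≃+* ℂ, ∀ z : ℂ, z ^ N = 1 → σ z = z ^ k := by
  have : NeZero N := ⟨hN.ne'⟩
  have : NeZero (N : ℚ) := ⟨by exact_mod_cast hN.ne'⟩
  have : IsCyclotomicExtension {N} ℚ (CyclotomicField N ℚ) :=
    CyclotomicField.isCyclotomicExtension N ℚ
  have hcy : Irreducible (Polynomial.cyclotomic N ℚ) := Polynomial.cyclotomic.irreducible_rat hN
  have hz := IsCyclotomicExtension.zeta_spec N ℚ (CyclotomicField N ℚ)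
  have hμ := hz.pow_of_coprime k hk
  let g : (CyclotomicField N ℚ) ≃ₐ[ℚ] (CyclotomicField N ℚ) :=
    IsCyclotomicExtension.fromZetaAut hμ hcy
  have hg : g (IsCyclotomicExtension.zeta N ℚ (CyclotomicField N ℚ)) =
      IsCyclotomicExtension.zeta N ℚ (CyclotomicField N ℚ) ^ k :=
    IsCyclotomicExtension.fromZetaAut_spec hμ hcy
  let j : CyclotomicField N ℚ →+* ℂ :=
    (IsAlgClosed.lift (M := ℂ) (R := ℚ) (S := CyclotomicField N ℚ) :
      CyclotomicField N ℚ →ₐ[ℚ] ℂ)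
  obtain ⟨σ, hσ⟩ := Pool.Agent.H977R3.CM.exists_aut j
    (g : (CyclotomicField N ℚ) ≃+* (CyclotomicField N ℚ))
  refine ⟨σ, fun z hz1 => ?_⟩
  have hjz : IsPrimitiveRoot (j (IsCyclotomicExtension.zeta N ℚ (CyclotomicField N ℚ))) N :=
    hz.map_of_injective j.injective
  obtain ⟨i, -, hi⟩ := hjz.eq_pow_of_pow_eq_one hz1
  rw [← hi, map_pow, hσ]
  change (j (g (IsCyclotomicExtension.zeta N ℚ (CyclotomicField N ℚ)))) ^ i = _
  rw [hg, map_pow]
  ring

/-- character values at powers -/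
theorem gal_char {G : Type} [Group G] [Fintype G] {σ : ℂ ≃+* ℂ} {N k : ℕ}
    (hσ : ∀ z : ℂ, z ^ N = 1 → σ z = z ^ k) {χ : G → ℂ} (hχ : IsIrr χ) {g : G}
    (hg : g ^ N = 1) : σ (χ g) = χ (g ^ k) := by
  obtain ⟨l, hl⟩ := exists_l g
  have h1 := IC.fourier l hl (fun c => χ (c : G))
  have h2 : ∀ j : ℕ, ∃ n : ℕ, (Nat.card (Subgroup.zpowers g) : ℂ)⁻¹ *
      ∑ d : Subgroup.zpowers g, (((l ^ j) d : ℂˣ) : ℂ) * χ ((d⁻¹ : Subgroup.zpowers g) : G) = n :=
    fun j => IC.mult_nat' (Subgroup.zpowers g) (l ^ j) hχ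
  choose n hn using h2
  simp only [hn] at h1
  have h3 := h1 (yy g)
  have h4 := h1 (yy g ^ k)
  have e1 : (((yy g) : Subgroup.zpowers g) : G) = g := rfl
  have e2 : (((yy g) ^ k : Subgroup.zpowers g) : G) = g ^ k := rfl
  rw [e1] at h3
  rw [e2] at h4
  rw [h4, h3, map_sum]
  refine Finset.sum_congr rfl fun j _ => ?_
  rw [map_mul, map_natCast]
  congr 1
  have h5 : ((((l ^ j) (yy g) : ℂˣ) : ℂ)) ^ N = 1 := by
    rw [← Units.val_pow_eq_pow_val, ← map_pow]
    have : (yy g) ^ N = 1 := Subtype.ext hg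
    rw [this, map_one, Units.val_one]
  rw [hσ _ h5, map_pow, Units.val_pow_eq_pow_val]

theorem exists_exponent {p t n : ℕ} (hp : p.Prime) (ht : ¬ p ∣ t) (hn : 0 < n) :
    ∃ s : ℕ, t * s ≡ 1 [MOD p] ∧ s.Coprime n := by
  have hcop : Nat.Coprime t p := ((Nat.Prime.coprime_iff_not_dvd hp).2 ht).symm
  obtain ⟨r, hr⟩ : ∃ r : ℕ, t * r ≡ 1 [MOD p] := by
    obtain ⟨m, hm⟩ := Nat.exists_mul_mod_eq_one_of_coprime hcop hp.one_lt
    exact ⟨m, by rw [Nat.ModEq, hm.2, Nat.mod_eq_of_lt hp.one_lt]⟩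
  -- the part of `n` prime to `p`
  set b := n.factorization p with hb
  set m := n / p ^ b with hm
  have hmn : p ^ b * m = n := Nat.ordProj_mul_ordCompl_eq_self n p
  have hc : Nat.Coprime p m := Nat.coprime_ordCompl hp hn.ne'
  obtain ⟨s, hs1, hs2⟩ := Nat.chineseRemainder hc r 1
  refine ⟨s, (Nat.ModEq.mul_left t hs1).trans hr, ?_⟩
  rw [← hmn]
  refine Nat.Coprime.mul_right (Nat.Coprime.pow_right _ ?_) ?_
  · rw [Nat.coprime_comm, Nat.Prime.coprime_iff_not_dvd hp]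
    intro hd
    have h1 : t * s ≡ 1 [MOD p] := (Nat.ModEq.mul_left t hs1).trans hr
    have h2 : t * s ≡ 0 [MOD p] := (Nat.modEq_zero_iff_dvd).2 (hd.mul_left t)
    have h3 : p ∣ 1 := (Nat.modEq_zero_iff_dvd).1 (h1.symm.trans h2)
    exact hp.one_lt.ne' (Nat.dvd_one.1 h3)
  · have : Nat.gcd s m = Nat.gcd 1 m := by
      have := Nat.ModEq.gcd_eq hs2
      exact this
    rw [Nat.Coprime, this, Nat.gcd_one_left]

theorem t_RL : S_RL := by
  intro G _ _ p hp l c hc H χ ψ hχ hψ ε h t ht k hk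
  obtain ⟨s, hs1, hs2⟩ := exists_exponent (n := Nat.card G) hp ht Nat.card_pos
  obtain ⟨σ, hσ⟩ := exists_sigma (N := Nat.card G) Nat.card_pos hs2
  have h1 : σ (χ k) = χ ((k : G) ^ s) := gal_char hσ hχ pow_card_eq_one'
  have h2 : σ (ψ k) = ψ (k ^ s) := gal_char hσ hψ (by
    apply Subtype.ext
    rw [Subgroup.coe_pow, pow_card_eq_one', Subgroup.coe_one])
  have h3 := h (k ^ s) (by
    rw [Subgroup.coe_pow, map_pow, hk, ← pow_mul]
    conv_rhs => rw [← pow_one c]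
    rw [pow_eq_pow_iff_modEq, hc]
    exact hs1)
  rw [Subgroup.coe_pow, ← h1, ← h2, ← map_intCast σ, ← map_mul] at h3
  exact σ.injective h3

end Pool.Agent.Q17.TC
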