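import Pool.Agent.Q17.TC.Stm

/-!
# Schur orthogonality in trace form, lifts, spaces of intertwiners (project TC: ORT, LFT, HOM)
-/

set_option autoImplicit false
set_option linter.style.haveILetI false
set_option linter.unusedSectionVars false

open scoped BigOperators Classical
open Pool.Agent.Helper884 Representation Pool.Agent.H254R3.IN Pool.Agent.Y62

noncomputable section

namespace Pool.Agent.Q17.TC

theorem finrank_ne {N W : Type} [Group N] [AddCommGroup W] [Module ℂ W]
    [FiniteDimensional ℂ W] {ρ : Representation ℂ N W} (h : ρ.IsIrreducible) :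
    (Module.finrank ℂ W : ℂ) ≠ 0 := by
  have := irr_nontrivial ρ h
  exact_mod_cast (Module.finrank_pos (R := ℂ) (M := W)).ne'

/-- averaging gives a scalar -/
theorem average {N W : Type} [Group N] [Fintype N] [AddCommGroup W] [Module ℂ W]
    [FiniteDimensional ℂ W] (ρ : Representation ℂ N W) (h : ρ.IsIrreducible) (C : W →ₗ[ℂ] W) :
    ∑ n : N, ρ n ∘ₗ C ∘ₗ ρ n⁻¹ =
      ((Nat.card N : ℂ) / (Module.finrank ℂ W : ℂ) * LinearMap.trace ℂ W C) • LinearMap.id := by
  obtain ⟨c, hc⟩ := schur ρ h (∑ n : N, ρ n ∘ₗ C ∘ₗ ρ n⁻¹) (by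
    intro m w
    simp only [LinearMap.sum_apply, LinearMap.comp_apply, map_sum]
    refine Fintype.sum_equiv (Equiv.mulLeft m⁻¹) _ _ fun n => ?_
    simp only [Equiv.coe_mulLeft, mul_inv_rev, inv_inv]
    rw [← Module.End.mul_apply (ρ m), ← map_mul, mul_inv_cancel_left,
      ← Module.End.mul_apply (ρ n⁻¹), ← map_mul])
  have htr : LinearMap.trace ℂ W (∑ n : N, ρ n ∘ₗ C ∘ₗ ρ n⁻¹) =
      (Nat.card N : ℂ) * LinearMap.trace ℂ W C := by
    rw [map_sum]
    have : ∀ n : N, LinearMap.trace ℂ W (ρ n ∘ₗ C ∘ₗ ρ n⁻¹) = LinearMap.trace ℂ W C := by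
      intro n
      rw [LinearMap.trace_comp_comm']
      have : (C ∘ₗ ρ n⁻¹) ∘ₗ ρ n = C := by
        ext w
        change C ((ρ n⁻¹ * ρ n) w) = C w
        rw [← map_mul, inv_mul_cancel, map_one]
        rfl
      rw [this]
    simp [this]
  rw [hc, map_smul, LinearMap.trace_id, smul_eq_mul] at htr
  rw [hc]
  congr 1
  have := finrank_ne h
  field_simp
  exact htr

/-- the trace in a basis -/
theorem trace_sum {W : Type} [AddCommGroup W] [Module ℂ W] [FiniteDimensional ℂ W]
    (T : W →ₗ[ℂ] W) : LinearMap.trace ℂ W T =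
      ∑ i, (Module.finBasis ℂ W).coord i (T (Module.finBasis ℂ W i)) := by
  rw [LinearMap.trace_eq_matrix_trace ℂ (Module.finBasis ℂ W), Matrix.trace]
  exact Finset.sum_congr rfl fun i _ => by
    rw [Matrix.diag_apply, LinearMap.toMatrix_apply, Module.Basis.coord_apply]

theorem t_ORT : S_ORT := by
  intro N W _ _ _ _ _ ρ hρ A B
  set b := Module.finBasis ℂ W with hb
  have key : ∀ i j, ∑ n : N, b.coord i (A (ρ n (b i))) * b.coord j (ρ n⁻¹ (B (b j))) =
      if i = j then (Nat.card N : ℂ) / (Module.finrank ℂ W : ℂ) * b.coord i (A (B (b i))) else 0 := by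
    intro i j
    have h1 := average ρ hρ ((b.coord j).smulRight (b i))
    have h2 : LinearMap.trace ℂ W ((b.coord j).smulRight (b i)) = if i = j then 1 else 0 := by
      rw [trace_sum, ← hb]
      simp only [LinearMap.smulRight_apply, map_smul, Module.Basis.coord_apply,
        Module.Basis.repr_self, Finsupp.single_apply, smul_eq_mul]
      simp
    rw [h2] at h1
    have h3 := congrArg (fun T : W →ₗ[ℂ] W => b.coord i (A (T (B (b j))))) h1
    simp only [LinearMap.sum_apply, LinearMap.comp_apply, map_sum, LinearMap.smulRight_apply,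
      map_smul, LinearMap.smul_apply, LinearMap.id_apply, smul_eq_mul] at h3
    have h4 : ∑ n : N, b.coord i (A (ρ n (b i))) * b.coord j (ρ n⁻¹ (B (b j))) =
        ∑ n : N, b.coord j (ρ n⁻¹ (B (b j))) * b.coord i (A (ρ n (b i))) :=
      Finset.sum_congr rfl fun n _ => mul_comm _ _
    rw [h4, h3]
    by_cases hij : i = j
    · subst hij
      simp
    · simp [hij]
  have h5 : ∀ n : N, LinearMap.trace ℂ W (A ∘ₗ ρ n) * LinearMap.trace ℂ W (ρ n⁻¹ ∘ₗ B) =
      ∑ i, ∑ j, b.coord i (A (ρ n (b i))) * b.coord j (ρ n⁻¹ (B (b j))) := by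
    intro n
    rw [trace_sum, trace_sum, ← hb, Finset.sum_mul_sum]
    rfl
  simp only [h5]
  rw [Finset.sum_comm]
  simp only [Finset.sum_comm (s := Finset.univ (α := N))]
  simp only [key]
  simp only [Finset.sum_ite_eq, Finset.mem_univ, if_true]
  rw [trace_sum (A ∘ₗ B), ← hb, Finset.mul_sum]
  rfl

theorem t_HOM : S_HOM := by
  intro L W W' _ _ _ _ _ _ _ _ R R' V hV
  haveI : Invertible (Nat.card L : ℂ) := invertibleOfNonzero IC.cardG_ne
  have h1 := Representation.card_inv_mul_sum_char_mul_char_eq_finrank (ρ := R') (σ := R)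
  have h2 : IC.B R.character R'.character =
      (Module.finrank ℂ (Representation.IntertwiningMap R' R) : ℂ) := by
    rw [← h1]
    simp [IC.B]
  rw [h2]
  congr 1
  refine LinearEquiv.finrank_eq
    { toFun := fun v => ⟨v.1, fun x => ((hV v.1).1 v.2 x).symm⟩
      invFun := fun f => ⟨f.toLinearMap, (hV _).2 fun x => (f.isIntertwining' x).symm⟩
      map_add' := fun v w => rfl
      map_smul' := fun c v => rfl
      left_inv := fun v => rfl
      right_inv := fun f => rfl }

theorem t_LFT : S_LFT := by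
  intro G W _ _ _ _ _ N _ ρ hρ g hg
  haveI : Invertible (Nat.card N : ℂ) := invertibleOfNonzero IC.cardG_ne
  let e : N ≃* N := MulAut.conjNormal g
  let σ : Representation ℂ N W := ρ.comp (e : N →* N)
  have hσ : σ.IsIrreducible := by
    refine irr_transfer ρ σ (fun n => ⟨e.symm n, 1, ?_⟩) (fun n => ⟨e n, 1, ?_⟩) hρ
    · rw [one_smul]
      change ρ n = ρ (e (e.symm n))
      rw [e.apply_symm_apply]
    · rw [one_smul]
      rfl
  have hc : σ.character = ρ.character := by
    funext n
    exact hg n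
  have h1 := Representation.char_orthonormal ρ ρ
  rw [if_pos ⟨Representation.Equiv.refl ρ⟩] at h1
  have h2 := Representation.char_orthonormal σ ρ
  rw [hc, h1] at h2
  have h3 : Nonempty (Representation.Equiv ρ σ) := by
    by_contra hcon
    rw [if_neg hcon] at h2
    exact one_ne_zero h2
  obtain ⟨φ⟩ := h3
  exact ⟨φ.toLinearEquiv, fun n w =>
    Representation.IntertwiningMap.isIntertwining _ _ φ.toIntertwiningMap n w⟩

end Pool.Agent.Q17.TC
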