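import Pool.Agent.Q277.TC.Lo

/-!
A prime `r` for which `± λ` is a coefficient.
-/

set_option autoImplicit false

open Polynomial

namespace Pool.Agent.Q277.TC

variable {p q r μ lam e δ n T : ℕ}

theorem choose_n (N r T : ℕ) (hN : 0 < N) (hr : N < r) (c : ℤ) :
    ∃ n : ℕ, r * T ≤ n ∧ n < r * (T + 1) ∧ ∃ u : ℤ, (n : ℤ) = c + N * u := by
  have hN' : (0 : ℤ) < N := by exact_mod_cast hN
  have h0 := Int.emod_nonneg (c - r * T) hN'.ne'
  have h1 := Int.emod_lt_of_pos (c - r * T) hN'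
  have h2 := Int.emod_add_mul_ediv (c - r * T) N
  refine ⟨r * T + ((c - r * T) % N).toNat, by omega, ?_, -((c - r * T) / N), ?_⟩
  · rw [mul_add, mul_one]
    omega
  · push_cast
    rw [Int.toNat_of_nonneg h0]
    linarith

theorem yA_eq (m : ℕ) : ∃ u : ℤ, (yA p lam m : ℤ) = lam + m - p * u := by
  rw [yA]
  split_ifs with h
  · exact ⟨0, by push_cast; ring⟩
  · exact ⟨1, by rw [Nat.cast_sub (by omega)]; push_cast; ring⟩

theorem yB_eq (hlp : lam < p) (h1 : lam ≤ δ) (hp2 : p < 2 * lam) (m : ℕ) :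
    ∃ u : ℤ, (yB p lam δ m : ℤ) = lam + δ + m - p * u := by
  rw [yB]
  split_ifs with h
  · exact ⟨1, by rw [Nat.cast_sub (by omega)]; push_cast; ring⟩
  · exact ⟨2, by rw [Nat.cast_sub (by omega)]; push_cast; ring⟩

theorem attain (hp : p.Prime) (hq : q.Prime) (hpq : p < q) (hμ : μ * p + lam * q = p * q + 1)
    (hμ1 : 1 ≤ μ) (hμq : μ ≤ q) (hlp : lam < p) (hp2 : p < 2 * lam) (hq2 : p * lam ≤ q)
    (hδ1 : lam ≤ δ) (hδ2 : δ + 2 * lam ≤ 2 * p)
    (hδ : (p : ℤ) ∣ (q : ℤ) - δ ∨ (p : ℤ) ∣ (q : ℤ) + δ) :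
    ∃ r : ℕ, r.Prime ∧ q < r ∧ ∃ n : ℕ,
      ((cyclotomic (p * q * r) ℤ).coeff n).natAbs = lam := by
  have hp2' := hp.two_le
  have hl2 : 2 ≤ lam := by omega
  have hμ' : (μ : ℤ) * p + lam * q = p * q + 1 := by exact_mod_cast hμ
  have hP : (2 : ℤ) ≤ p := by exact_mod_cast hp2'
  have hQ : (0 : ℤ) < q := by exact_mod_cast hq.pos
  have hL : (2 : ℤ) ≤ lam := by exact_mod_cast hl2
  have hLP : (lam : ℤ) + 1 ≤ p := by exact_mod_cast hlp
  have hP2 : (p : ℤ) + 1 ≤ 2 * lam := by exact_mod_cast hp2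
  have hQ2 : (p : ℤ) * lam ≤ q := by exact_mod_cast hq2
  -- `λ ≤ μ`
  have hlμ : lam ≤ μ := by
    by_contra h
    push Not at h
    have h1 : (μ : ℤ) * p ≤ (lam - 1) * p := mul_le_mul_of_nonneg_right (by omega) (by omega)
    have h2 : (1 : ℤ) * q ≤ (p - lam) * q := mul_le_mul_of_nonneg_right (by omega) (by omega)
    nlinarith
  obtain ⟨e, he⟩ : ∃ e, e = (μ - 1) / (lam - 1) := ⟨_, rfl⟩
  have he1 : e * (lam - 1) ≤ μ - 1 := by rw [he]; exact Nat.div_mul_le_self _ _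
  have he2 : μ - 1 < (e + 1) * (lam - 1) := by
    rw [he]
    have := Nat.lt_div_mul_add (a := μ - 1) (b := lam - 1) (by omega)
    rw [add_mul, one_mul]
    exact this
  have he0 : 1 ≤ e := by
    rw [he]
    exact (Nat.one_le_div_iff (by omega)).2 (by omega)
  have hcl : ((lam - 1 : ℕ) : ℤ) = lam - 1 := by omega
  have hcμ : ((μ - 1 : ℕ) : ℤ) = μ - 1 := by omega
  have he1' : (e : ℤ) * (lam - 1) ≤ μ - 1 := by
    rw [← hcl, ← hcμ]
    exact_mod_cast he1
  have he2' : (μ : ℤ) ≤ (e + 1) * (lam - 1) := by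
    have : ((μ - 1 : ℕ) : ℤ) + 1 ≤ ((e : ℤ) + 1) * ((lam - 1 : ℕ) : ℤ) := by exact_mod_cast he2
    rw [hcl, hcμ] at this
    linarith
  have hep : e * p < q := by
    by_contra h
    push Not at h
    have h1 : (q : ℤ) ≤ e * p := by exact_mod_cast h
    have h2 : (q : ℤ) * (lam - 1) ≤ e * p * (lam - 1) := mul_le_mul_of_nonneg_right h1 (by omega)
    have h3 : (e : ℤ) * (lam - 1) * p ≤ (μ - 1) * p := mul_le_mul_of_nonneg_right he1' (by omega)
    have h4 : ((p : ℤ) - lam) * q ≤ (lam - 1) * q := mul_le_mul_of_nonneg_right (by omega) hQ.le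
    nlinarith
  have hI : (lam + δ - 1 - p) * q + 1 ≤ e * p * (lam - 1) := by
    have h1 : ((lam + δ - 1 - p : ℕ) : ℤ) ≤ (p : ℤ) - lam - 1 := by omega
    have h2 : ((lam + δ - 1 - p : ℕ) : ℤ) * q ≤ (p - lam - 1) * q :=
      mul_le_mul_of_nonneg_right h1 hQ.le
    have h3 : (μ : ℤ) * p ≤ (e + 1) * (lam - 1) * p := mul_le_mul_of_nonneg_right he2' (by omega)
    have h4 : (((lam + δ - 1 - p) * q + 1 : ℕ) : ℤ) ≤ ((e * p * (lam - 1) : ℕ) : ℤ) := by
      rw [Nat.cast_mul, hcl]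
      push_cast
      nlinarith
    exact_mod_cast h4
  have hx : ∀ m, xx p μ lam e m < q := by
    intro m
    have h1 : e * (p - lam) ≤ e * (lam - 1) := Nat.mul_le_mul_left _ (by omega)
    have h2 : 2 * (μ - 1) < q := by
      by_contra h
      push Not at h
      have h3 : (q : ℤ) ≤ 2 * (μ - 1) := by omega
      have h4 : (q : ℤ) * p ≤ 2 * (μ - 1) * p := mul_le_mul_of_nonneg_right h3 (by omega)
      have h5 : (2 * ((p : ℤ) - lam)) * q ≤ p * q := mul_le_mul_of_nonneg_right (by omega) hQ.le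
      nlinarith
    rw [xx]
    omega
  -- the modulus
  obtain ⟨T, hT⟩ : ∃ T, T + 1 = (μ - 1) * p := by
    refine ⟨(μ - 1) * p - 1, ?_⟩
    have : 0 < (μ - 1) * p := Nat.mul_pos (by omega) hp.pos
    omega
  have hpq0 : 0 < p * q := Nat.mul_pos hp.pos hq.pos
  obtain ⟨d, hd⟩ : ∃ d, d + e * p = q := ⟨q - e * p, by omega⟩
  have hd' : (d : ℤ) = q - e * p := by
    have : (d : ℤ) + e * p = q := by exact_mod_cast hd
    linarith
  have hndpq : ¬ p ∣ q := fun h => hpq.ne ((Nat.prime_dvd_prime_iff_eq hp hq).1 h)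
  have hndqp : ¬ q ∣ p := fun h => hpq.ne ((Nat.prime_dvd_prime_iff_eq hq hp).1 h).symm
  have hcd : Nat.Coprime d (p * q) := by
    apply Nat.Coprime.mul_right
    · apply Nat.Coprime.symm
      rw [hp.coprime_iff_not_dvd]
      intro h
      apply hndpq
      rw [← hd]
      exact dvd_add h (Dvd.intro_left _ rfl)
    · apply Nat.Coprime.symm
      rw [hq.coprime_iff_not_dvd]
      intro h
      have h1 : q ∣ e * p := (Nat.dvd_add_right h).1 (by rw [hd])
      rcases (Nat.Prime.dvd_mul hq).1 h1 with h2 | h2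
      · have h3 := Nat.le_of_dvd (by omega) h2
        have h4 : e ≤ e * p := Nat.le_mul_of_pos_right _ hp.pos
        omega
      · exact hndqp h2
  have hne : NeZero (p * q) := ⟨hpq0.ne'⟩
  obtain ⟨u, hu⟩ := (ZMod.isUnit_iff_coprime d (p * q)).2 hcd
  obtain ⟨r, hr1, hr, hr2⟩ := Nat.forall_exists_prime_gt_and_eq_mod
    (q := p * q) (a := -((u⁻¹ : (ZMod (p * q))ˣ) : ZMod (p * q))) (Units.isUnit _).neg (p * q)
  have hrd : ((p * q : ℕ) : ℤ) ∣ r * d + 1 := by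
    have h1 : ((r * d + 1 : ℕ) : ZMod (p * q)) = 0 := by
      push_cast
      rw [hr2, ← hu]
      simp
    have h2 := (ZMod.natCast_eq_zero_iff _ _).1 h1
    exact_mod_cast h2
  obtain ⟨w, hw⟩ := hrd
  push_cast at hw
  have hqr : q < r := by
    have : 1 * q ≤ p * q := Nat.mul_le_mul_right _ (by omega)
    omega
  have hs : p + q ≤ p * q := by
    have h1 : 2 * q ≤ p * q := Nat.mul_le_mul_right _ hp2'
    omega
  refine ⟨r, hr, hqr, ?_⟩
  have hyAp : ∀ m < p, yA p lam m < p := by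
    intro m hm
    rw [yA]
    split_ifs <;> omega
  have hyBp : ∀ m < p, yB p lam δ m < p := by
    intro m hm
    rw [yB]
    split_ifs <;> omega
  have hxe : ∀ m < p, (xx p μ lam e m : ℤ) = μ - 1 + e * ((p : ℤ) - lam - m) := fun m hm =>
    xx_eq he1 hμ1 (by omega) hlp.le hm
  rcases hδ with ⟨j, hj⟩ | ⟨j, hj⟩
  · -- `δ ≡ q`
    obtain ⟨n, hn1, hn2, v, hv⟩ := choose_n (p * q) r T hpq0 hr1
      (r * ((μ - 1 + e * ((p : ℤ) - lam)) * p + lam * q))
    push_cast at hv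
    refine ⟨n, ?_⟩
    rw [kap hp hq hr hpq.ne (by omega) (by omega) hμ hμq hlp.le hs n (xx p μ lam e)
      (yA p lam) (yB p lam δ) ?_, Finset.sum_sub_distrib,
      sumA hn1 hn2 hT hμ1 (by omega) hlp he0 hep he1,
      sumB hn1 hn2 hT hμ1 (by omega) hlp he0 hep he1 hp2 hδ1 hδ2 hI]
    · omega
    · intro m hm
      obtain ⟨a, ha⟩ := yA_eq (p := p) (lam := lam) m
      obtain ⟨b, hb⟩ := yB_eq hlp hδ1 hp2 m
      refine ⟨hx m, hyAp m hm, hyBp m hm, ?_, ?_⟩
      · refine ⟨v - m * w + r * a, ?_⟩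
        rw [ha, hxe m hm, hv]
        push_cast
        linear_combination (-(m : ℤ)) * hw + (m * r : ℤ) * hd'
      · refine ⟨v - m * w + r * b - (q * w + r * e - r * j), ?_⟩
        rw [hb, hxe m hm, hv]
        push_cast
        linear_combination (-(m : ℤ) - q) * hw + ((m + q) * r : ℤ) * hd' + (q * r : ℤ) * hj
  · -- `δ ≡ -q`
    obtain ⟨n, hn1, hn2, v, hv⟩ := choose_n (p * q) r T hpq0 hr1
      (r * ((μ - 1 + e * ((p : ℤ) - lam)) * p + (lam + δ) * q))
    push_cast at hv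
    refine ⟨n, ?_⟩
    rw [kap hp hq hr hpq.ne (by omega) (by omega) hμ hμq hlp.le hs n (xx p μ lam e)
      (yB p lam δ) (yA p lam) ?_, Finset.sum_sub_distrib,
      sumA hn1 hn2 hT hμ1 (by omega) hlp he0 hep he1,
      sumB hn1 hn2 hT hμ1 (by omega) hlp he0 hep he1 hp2 hδ1 hδ2 hI]
    · omega
    · intro m hm
      obtain ⟨a, ha⟩ := yA_eq (p := p) (lam := lam) m
      obtain ⟨b, hb⟩ := yB_eq hlp hδ1 hp2 m
      refine ⟨hx m, hyBp m hm, hyAp m hm, ?_, ?_⟩
      · refine ⟨v - m * w + r * b, ?_⟩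
        rw [hb, hxe m hm, hv]
        push_cast
        linear_combination (-(m : ℤ)) * hw + (m * r : ℤ) * hd'
      · refine ⟨v - m * w + r * a + (r * j - q * w - r * e), ?_⟩
        rw [ha, hxe m hm, hv]
        push_cast
        linear_combination (-(m : ℤ) - q) * hw + ((m + q) * r : ℤ) * hd' + (q * r : ℤ) * hj

end Pool.Agent.Q277.TC
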