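import Pool.Agent.Q277.TC.Ort

/-!
# Values on a coset (project TC: DEC, SQ)
-/

set_option autoImplicit false
set_option linter.style.haveILetI false
set_option linter.unusedSectionVars false

open scoped BigOperators Classical
open Pool.Agent.Helper884 Representation Pool.Agent.H254R3.IN Pool.Agent.Y62

noncomputable section

namespace Pool.Agent.Q17.TC

section

variable {G W : Type} [Group G] [Fintype G] [AddCommGroup W] [Module ℂ W] [FiniteDimensional ℂ W]
  {N : Subgroup G} [N.Normal] {ρ : Representation ℂ N W}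

/-- a lift preserves the character -/
theorem Lf.char {g : G} {u : W ≃ₗ[ℂ] W} (h : Lf ρ g u) (n : N) :
    ρ.character (MulAut.conjNormal g n) = ρ.character n := by
  have e : ρ (MulAut.conjNormal g n) = u.conj (ρ n) := by
    ext w
    rw [LinearEquiv.conj_apply_apply, h, u.apply_symm_apply]
  change LinearMap.trace ℂ W (ρ (MulAut.conjNormal g n)) = _
  rw [e, LinearMap.trace_conj']
  rfl

theorem B_nonneg_aux (hρ : ρ.IsIrreducible) : IC.B ρ.character ρ.character = 1 := by
  have := IC.B_irr (chi := ρ.character) (psi := ρ.character) ⟨W, _, _, inferInstance, ρ, hρ, rfl⟩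
    ⟨W, _, _, inferInstance, ρ, hρ, rfl⟩
  rwa [if_pos rfl] at this

/-- the idempotent of the character -/
def ei {V : Type} [AddCommGroup V] [Module ℂ V] (ρ : Representation ℂ N W)
    (X : Representation ℂ G V) : V →ₗ[ℂ] V :=
  (ρ.character 1 / (Nat.card N : ℂ)) • ∑ n : N, ρ.character n⁻¹ • X n

theorem ei_eq_id {V : Type} [AddCommGroup V] [Module ℂ V] [FiniteDimensional ℂ V]
    (hρ : ρ.IsIrreducible) (hL : ∀ g : G, ∃ u : W ≃ₗ[ℂ] W, Lf ρ g u)
    (X : Representation ℂ G V) (hX : X.IsIrreducible) (hO : Ov N X.character ρ.character) :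
    ei ρ X = LinearMap.id := by
  have hN : (Nat.card N : ℂ) ≠ 0 := IC.cardG_ne
  have hd := finrank_ne hρ
  have h1 : ρ.character 1 = (Module.finrank ℂ W : ℂ) := ρ.char_one
  obtain ⟨c, hc⟩ := schur X hX (ei ρ X) (by
    intro g v
    obtain ⟨u, hu⟩ := hL g⁻¹
    simp only [ei, LinearMap.smul_apply, LinearMap.sum_apply, map_smul, map_sum]
    congr 1
    refine Fintype.sum_equiv (MulAut.conjNormal g⁻¹ : MulAut N).toEquiv _ _ fun n => ?_
    simp only [MulEquiv.toEquiv_eq_coe, MulEquiv.coe_toEquiv]
    rw [← map_inv, hu.char, MulAut.conjNormal_apply, ← Module.End.mul_apply, ← map_mul,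
      ← Module.End.mul_apply, ← map_mul]
    congr 3
    group)
  have h2 : ei ρ X ∘ₗ ei ρ X = ei ρ X := by
    have e1 : ei ρ X ∘ₗ ei ρ X = ((ρ.character 1 / (Nat.card N : ℂ)) *
        (ρ.character 1 / (Nat.card N : ℂ))) •
          ∑ k : N, (∑ n : N, ρ.character n⁻¹ * ρ.character (k⁻¹ * n)) • X k := by
      ext v
      simp only [ei, LinearMap.smul_apply, LinearMap.sum_apply, LinearMap.comp_apply, map_smul,
        map_sum, Finset.smul_sum, smul_smul, Finset.sum_smul]
      conv_rhs => rw [Finset.sum_comm]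
      conv_lhs => rw [Finset.sum_comm]
      refine Finset.sum_congr rfl fun n _ => ?_
      refine Fintype.sum_equiv (Equiv.mulLeft n) _ _ fun m => ?_
      simp only [Equiv.coe_mulLeft]
      rw [Subgroup.coe_mul, map_mul, Module.End.mul_apply]
      congr 1
      rw [show (n * m)⁻¹ * n = m⁻¹ by group]
      ring
    have e2 : ∀ k : N, ∑ n : N, ρ.character n⁻¹ * ρ.character (k⁻¹ * n) =
        (Nat.card N : ℂ) / (Module.finrank ℂ W : ℂ) * ρ.character k⁻¹ := by
      intro k
      have := t_ORT N W ρ hρ (ρ k⁻¹) LinearMap.id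
      rw [LinearMap.comp_id] at this
      rw [show ρ.character k⁻¹ = LinearMap.trace ℂ W (ρ k⁻¹) from rfl, ← this]
      refine Finset.sum_congr rfl fun n _ => ?_
      rw [LinearMap.comp_id, mul_comm]
      congr 1
      change LinearMap.trace ℂ W (ρ (k⁻¹ * n)) = _
      rw [map_mul]
      rfl
    rw [e1]
    simp only [e2, ei]
    rw [h1]
    ext v
    simp only [LinearMap.smul_apply, LinearMap.sum_apply, Finset.smul_sum, smul_smul]
    refine Finset.sum_congr rfl fun n _ => ?_
    congr 1
    field_simp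
  have h3 : LinearMap.trace ℂ V (ei ρ X) =
      ρ.character 1 * IC.B (fun n : N => X.character n) ρ.character := by
    simp only [ei, map_smul, map_sum, smul_eq_mul, IC.B]
    rw [mul_comm (ρ.character 1) (_ * _), mul_right_comm, div_eq_inv_mul]
    congr 1
    refine Finset.sum_congr rfl fun n _ => ?_
    rw [mul_comm]
    rfl
  have h4 : LinearMap.trace ℂ V (ei ρ X) ≠ 0 := by
    rw [h3, h1]
    exact mul_ne_zero hd hO
  have hc0 : c ≠ 0 := by
    rintro rfl
    apply h4
    rw [hc, zero_smul, map_zero]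
  have hnt := irr_nontrivial X hX
  have hc1 : c = 1 := by
    rw [hc] at h2
    obtain ⟨v, hv⟩ := exists_ne (0 : V)
    have h5 := LinearMap.congr_fun h2 v
    simp only [LinearMap.comp_apply, LinearMap.smul_apply, LinearMap.id_apply, smul_smul] at h5
    have h6 : (c * c - c) • v = 0 := by rw [sub_smul, h5, sub_self]
    rcases smul_eq_zero.1 h6 with h | h
    · have : c * (c - 1) = 0 := by linear_combination h
      rcases mul_eq_zero.1 this with h | h
      · exact absurd h hc0
      · exact sub_eq_zero.1 h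
    · exact absurd h hv
  rw [hc, hc1, one_smul]

end

theorem t_DEC : S_DEC := by
  intro G W _ _ _ _ _ N _ ρ hρ hL χ hχ hO g u hu
  obtain ⟨V, _, _, _, X, hX, rfl⟩ := hχ
  have hcls : ∀ a b : G, X.character (a * b) = X.character (b * a) := fun a b =>
    (X.char_mul_comm _ _)
  have hid := ei_eq_id hρ hL X hX hO
  set κ : ℂ := ρ.character 1 / (Nat.card N : ℂ) with hκ
  let A : W →ₗ[ℂ] W := κ • ∑ k : N, X.character (k * g) • ρ k⁻¹
  -- the values
  have hval : ∀ n : N, X.character (n * g) = LinearMap.trace ℂ W (ρ n ∘ₗ A) := by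
    intro n
    have e1 : X.character (n * g) = LinearMap.trace ℂ V (ei ρ X ∘ₗ X (n * g)) := by
      rw [hid, LinearMap.id_comp]
      rfl
    have e2 : ei ρ X ∘ₗ X (n * g) = κ • ∑ k : N, ρ.character k⁻¹ • X (k * (n * g)) := by
      ext v
      simp only [ei, LinearMap.comp_apply, LinearMap.smul_apply, LinearMap.sum_apply, map_mul,
        Module.End.mul_apply]
      rfl
    have e3 : ρ n ∘ₗ A = κ • ∑ k : N, X.character (k * g) • ρ (n * k⁻¹) := by
      ext w
      simp only [A, LinearMap.comp_apply, LinearMap.smul_apply, LinearMap.sum_apply, map_mul,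
        Module.End.mul_apply, map_smul, map_sum]
    rw [e1, e2, e3, map_smul, map_smul, map_sum, map_sum]
    congr 1
    refine Fintype.sum_equiv (Equiv.mulRight n) _ _ fun k => ?_
    simp only [Equiv.coe_mulRight]
    rw [map_smul, map_smul, smul_eq_mul, smul_eq_mul, mul_comm]
    congr 1
    · rw [Subgroup.coe_mul, mul_assoc]
      rfl
    · change LinearMap.trace ℂ W (ρ k⁻¹) = LinearMap.trace ℂ W (ρ _)
      congr 2
      group
  -- the twisted commutation
  have hA : ∀ (m : N) (w : W), A (ρ m w) = ρ (MulAut.conjNormal g m) (A w) := by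
    intro m w
    simp only [A, LinearMap.smul_apply, LinearMap.sum_apply, map_smul, map_sum]
    congr 1
    refine Fintype.sum_equiv ((Equiv.mulLeft m⁻¹).trans
      (Equiv.mulRight (MulAut.conjNormal g m))) _ _ fun k => ?_
    simp only [Equiv.trans_apply, Equiv.coe_mulLeft, Equiv.coe_mulRight]
    rw [← Module.End.mul_apply, ← map_mul, ← Module.End.mul_apply, ← map_mul]
    congr 1
    · rw [Subgroup.coe_mul, Subgroup.coe_mul, MulAut.conjNormal_apply]
      rw [show ((m⁻¹ : N) : G) * (k : G) * (g * (m : G) * g⁻¹) * g =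
        ((m⁻¹ : N) : G) * ((k : G) * g * m) by group]
      rw [hcls ((m⁻¹ : N) : G)]
      congr 1
      rw [Subgroup.coe_inv]
      group
    · congr 2
      group
  -- Schur
  obtain ⟨s, hs⟩ := schur ρ hρ (A ∘ₗ (u.symm : W →ₗ[ℂ] W)) (by
    intro n w
    obtain ⟨m, rfl⟩ : ∃ m, MulAut.conjNormal g m = n :=
      ⟨(MulAut.conjNormal g).symm n, MulEquiv.apply_symm_apply _ _⟩
    have e : (u.symm : W →ₗ[ℂ] W) (ρ (MulAut.conjNormal g m) w) =
        ρ m ((u.symm : W →ₗ[ℂ] W) w) := by
      change u.symm _ = ρ m (u.symm w)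
      rw [LinearEquiv.symm_apply_eq, hu, u.apply_symm_apply]
    rw [LinearMap.comp_apply, e, hA]
    rfl)
  have hs' : A = s • (u : W →ₗ[ℂ] W) := by
    ext w
    have := LinearMap.congr_fun hs (u w)
    simpa using this
  refine ⟨s, fun n => ?_⟩
  rw [hval, hs', LinearMap.comp_smul, map_smul, smul_eq_mul]
  rfl

end Pool.Agent.Q17.TC
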