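import Mathlib

/-!
Coefficients of the ternary cyclotomic polynomial `Φ_{pqr}` in the coordinates `i = x p + y q`.
-/

set_option autoImplicit false

open Polynomial

namespace Pool.Agent.Q277.TC

variable {p q r μ lam : ℕ}

/-- `Φ_{pq} (X^p - 1) (X^q - 1) = (X - 1) (X^{pq} - 1)`. -/
theorem phi_pq (hp : p.Prime) (hq : q.Prime) (hpq : p ≠ q) :
    cyclotomic (p * q) ℤ * ((X ^ p - 1) * (X ^ q - 1)) = (X - 1) * (X ^ (p * q) - 1) := by
  have h1 : cyclotomic p ℤ * (X - 1) = X ^ p - 1 := by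
    have := Fact.mk hp
    rw [cyclotomic_prime, geom_sum_mul]
  have h2 := cyclotomic_expand_eq_cyclotomic_mul (R := ℤ) hq
    (fun h => hpq ((Nat.prime_dvd_prime_iff_eq hq hp).1 h).symm)
  have h3 : expand ℤ q (cyclotomic p ℤ) * (X ^ q - 1) = X ^ (p * q) - 1 := by
    have h4 := congrArg (expand ℤ q) h1
    simp only [map_mul, map_sub, map_pow, expand_X, map_one] at h4
    rw [h4, ← pow_mul, mul_comm q p]
  calc cyclotomic (p * q) ℤ * ((X ^ p - 1) * (X ^ q - 1))
      = (cyclotomic (p * q) ℤ * cyclotomic p ℤ) * (X ^ q - 1) * (X - 1) := by rw [← h1]; ring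
    _ = (X - 1) * (X ^ (p * q) - 1) := by rw [← h2, h3]; ring

/-- the two geometric blocks of `Φ_{pq}` -/
noncomputable def BB (p q μ lam : ℕ) : ℤ[X] :=
  ∑ x ∈ Finset.range μ, ∑ y ∈ Finset.range lam, X ^ (x * p + y * q) -
    ∑ x ∈ Finset.range (q - μ), ∑ y ∈ Finset.range (p - lam), X ^ (1 + x * p + y * q)

theorem geo (a b : ℕ) : (∑ x ∈ Finset.range a, (X : ℤ[X]) ^ (x * b)) * (X ^ b - 1) =
    X ^ (a * b) - 1 := by
  have h1 := geom_sum_mul ((X : ℤ[X]) ^ b) a
  have h2 : ∑ x ∈ Finset.range a, (X : ℤ[X]) ^ (x * b) = ∑ x ∈ Finset.range a, (X ^ b) ^ x :=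
    Finset.sum_congr rfl fun x _ => by rw [← pow_mul, mul_comm]
  rw [h2, h1, ← pow_mul, mul_comm a b]

theorem phi_eq (hp : p.Prime) (hq : q.Prime) (hpq : p ≠ q) (hμ : μ * p + lam * q = p * q + 1)
    (hμq : μ ≤ q) (hl : lam ≤ p) : cyclotomic (p * q) ℤ = BB p q μ lam := by
  have hne : (X ^ p - 1 : ℤ[X]) * (X ^ q - 1) ≠ 0 :=
    mul_ne_zero (X_pow_sub_C_ne_zero hp.pos 1) (X_pow_sub_C_ne_zero hq.pos 1)
  apply mul_right_cancel₀ hne
  rw [phi_pq hp hq hpq]
  have h1 : BB p q μ lam = (∑ x ∈ Finset.range μ, (X : ℤ[X]) ^ (x * p)) *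
      (∑ y ∈ Finset.range lam, X ^ (y * q)) -
      X * ((∑ x ∈ Finset.range (q - μ), X ^ (x * p)) *
      (∑ y ∈ Finset.range (p - lam), X ^ (y * q))) := by
    rw [BB, Finset.sum_mul_sum, Finset.sum_mul_sum, Finset.mul_sum]
    congr 1
    · exact Finset.sum_congr rfl fun x _ => Finset.sum_congr rfl fun y _ => by rw [pow_add]
    · refine Finset.sum_congr rfl fun x _ => ?_
      rw [Finset.mul_sum]
      exact Finset.sum_congr rfl fun y _ => by rw [pow_add, pow_add, pow_one, mul_assoc]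
  have h2 := geo μ p
  have h3 := geo lam q
  have h4 := geo (q - μ) p
  have h5 := geo (p - lam) q
  have h6 : (q - μ) * p + 1 = lam * q := by
    have : (q - μ) * p + μ * p = q * p := by rw [← add_mul, Nat.sub_add_cancel hμq]
    rw [mul_comm q p] at this
    omega
  have h7 : (p - lam) * q + 1 = μ * p := by
    have : (p - lam) * q + lam * q = p * q := by rw [← add_mul, Nat.sub_add_cancel hl]
    omega
  rw [h1]
  have h8 : (X : ℤ[X]) ^ (μ * p) * X ^ (lam * q) = X ^ (p * q) * X := by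
    rw [← pow_add, hμ, pow_succ]
  have h9 : (X : ℤ[X]) * X ^ ((q - μ) * p) = X ^ (lam * q) := by
    rw [← h6, pow_succ, mul_comm]
  have h10 : (X : ℤ[X]) * X ^ ((p - lam) * q) = X ^ (μ * p) := by
    rw [← h7, pow_succ, mul_comm]
  have h11 : (X : ℤ[X]) * (X ^ ((q - μ) * p) * X ^ ((p - lam) * q)) = X ^ (p * q) := by
    rw [← pow_add, ← pow_succ']
    congr 1
    omega
  generalize (∑ x ∈ Finset.range μ, (X : ℤ[X]) ^ (x * p)) = a at *
  generalize (∑ y ∈ Finset.range lam, (X : ℤ[X]) ^ (y * q)) = b at *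
  generalize (∑ x ∈ Finset.range (q - μ), (X : ℤ[X]) ^ (x * p)) = c at *
  generalize (∑ y ∈ Finset.range (p - lam), (X : ℤ[X]) ^ (y * q)) = d at *
  have e1 : (a * b - X * (c * d)) * ((X ^ p - 1) * (X ^ q - 1)) =
      (a * (X ^ p - 1)) * (b * (X ^ q - 1)) - X * ((c * (X ^ p - 1)) * (d * (X ^ q - 1))) := by
    ring
  rw [e1, h2, h3, h4, h5]
  linear_combination (-1 : ℤ[X]) * h8 + h11 - h9 - h10

/-- `Φ_{pqr} (1 - X^{pq}) = Φ_{pq}(X^r) (1 + ... + X^{p-1}) (1 - X^q)`. -/
theorem phi_pqr (hp : p.Prime) (hq : q.Prime) (hr : r.Prime) (hpq : p ≠ q) (hpr : p ≠ r)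
    (hqr : q ≠ r) : cyclotomic (p * q * r) ℤ * (1 - X ^ (p * q)) =
      expand ℤ r (cyclotomic (p * q) ℤ) * ((∑ m ∈ Finset.range p, X ^ m) * (1 - X ^ q)) := by
  have hnd : ¬ r ∣ p * q := by
    intro h
    rcases (Nat.Prime.dvd_mul hr).1 h with h | h
    · exact hpr ((Nat.prime_dvd_prime_iff_eq hr hp).1 h).symm
    · exact hqr ((Nat.prime_dvd_prime_iff_eq hr hq).1 h).symm
  rw [cyclotomic_expand_eq_cyclotomic_mul hr hnd]
  have h1 := phi_pq hp hq hpq
  have h2 := geom_sum_mul (X : ℤ[X]) p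
  have hX : (X - 1 : ℤ[X]) ≠ 0 := X_sub_C_ne_zero 1
  apply mul_right_cancel₀ hX
  rw [← h2] at h1
  linear_combination (cyclotomic (p * q * r) ℤ) * h1

/-- the periodic form of the contribution of the exponent `v` -/
def kf (p q r n v : ℕ) : ℤ :=
  if r * v ≤ n then ∑ m ∈ Finset.range p,
    ((if ((p * q : ℕ) : ℤ) ∣ (n : ℤ) - r * v - m then 1 else 0) -
      (if ((p * q : ℕ) : ℤ) ∣ (n : ℤ) - r * v - m - q then 1 else 0)) else 0

/-- the contribution of the exponent `v` -/
def hf (p q r n v : ℕ) : ℤ :=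
  ∑ m ∈ Finset.range p, ((if n = r * v + m then 1 else 0) - (if n = r * v + m + q then 1 else 0))

/-- the sum over the two blocks -/
def blk (p q μ lam : ℕ) (f : ℕ → ℤ) : ℤ :=
  ∑ x ∈ Finset.range μ, ∑ y ∈ Finset.range lam, f (x * p + y * q) -
    ∑ x ∈ Finset.range (q - μ), ∑ y ∈ Finset.range (p - lam), f (1 + x * p + y * q)

theorem blk_add (f g : ℕ → ℤ) :
    blk p q μ lam (fun v => f v + g v) = blk p q μ lam f + blk p q μ lam g := by
  simp only [blk, Finset.sum_add_distrib]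
  ring

theorem kf_rec (hs : p + q ≤ p * q) (n v : ℕ) :
    kf p q r n v = hf p q r n v + if p * q ≤ n then kf p q r (n - p * q) v else 0 := by
  by_cases h1 : r * v ≤ n
  · by_cases h2 : n < r * v + p * q
    · -- only the representatives
      have h3 : (if p * q ≤ n then kf p q r (n - p * q) v else 0) = 0 := by
        split_ifs with h4
        · rw [kf, if_neg (by omega)]
        · rfl
      rw [h3, add_zero, kf, if_pos h1, hf]
      refine Finset.sum_congr rfl fun m hm => ?_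
      rw [Finset.mem_range] at hm
      have hm' : m < p := hm
      have h5 : (((p * q : ℕ) : ℤ) ∣ (n : ℤ) - r * v - m) ↔ n = r * v + m := by
        constructor
        · intro h
          have h6 : (n : ℤ) - r * v - m = 0 := by
            apply Int.eq_zero_of_abs_lt_dvd h
            rw [abs_lt]
            constructor <;> push_cast <;> zify at h1 h2 hm' hs <;> linarith
          zify
          linarith
        · intro h
          rw [h]
          push_cast
          simp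
      have h7 : (((p * q : ℕ) : ℤ) ∣ (n : ℤ) - r * v - m - q) ↔ n = r * v + m + q := by
        constructor
        · intro h
          have h6 : (n : ℤ) - r * v - m - q = 0 := by
            apply Int.eq_zero_of_abs_lt_dvd h
            rw [abs_lt]
            constructor <;> push_cast <;> zify at h1 h2 hm' hs <;> linarith
          zify
          linarith
        · intro h
          rw [h]
          push_cast
          have : (r : ℤ) * v + m + q - r * v - m - q = 0 := by ring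
          rw [this]
          exact dvd_zero _
      simp only [h5, h7]
    · -- periodicity
      have h3 : hf p q r n v = 0 := by
        rw [hf]
        refine Finset.sum_eq_zero fun m hm => ?_
        rw [Finset.mem_range] at hm
        rw [if_neg (by omega), if_neg (by omega)]
        rfl
      have h4 : p * q ≤ n := by omega
      rw [h3, zero_add, if_pos h4, kf, kf, if_pos h1, if_pos (by omega)]
      refine Finset.sum_congr rfl fun m _ => ?_
      have e1 : ((n - p * q : ℕ) : ℤ) = n - (p * q : ℕ) := by push_cast [Nat.cast_sub h4]; ring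
      have e2 : ∀ z : ℤ, (((p * q : ℕ) : ℤ) ∣ z - (p * q : ℕ)) ↔ ((p * q : ℕ) : ℤ) ∣ z := fun z =>
        dvd_sub_self_right
      rw [e1]
      have e3 : (n : ℤ) - (p * q : ℕ) - r * v - m = (n : ℤ) - r * v - m - (p * q : ℕ) := by ring
      have e4 : (n : ℤ) - r * v - m - (p * q : ℕ) - q = (n : ℤ) - r * v - m - q - (p * q : ℕ) := by
        ring
      simp only [e3, e4, e2]
  · have h3 : hf p q r n v = 0 := by
      rw [hf]
      refine Finset.sum_eq_zero fun m hm => ?_
      rw [if_neg (by omega), if_neg (by omega)]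
      rfl
    have h4 : (if p * q ≤ n then kf p q r (n - p * q) v else 0) = 0 := by
      split_ifs with h4
      · rw [kf, if_neg (by omega)]
      · rfl
    rw [h3, h4, kf, if_neg h1]
    rfl

theorem coeff_one (n v : ℕ) : (expand ℤ r (X ^ v) * ((∑ m ∈ Finset.range p, X ^ m) *
    (1 - X ^ q))).coeff n = hf p q r n v := by
  have h1 : expand ℤ r (X ^ v) * ((∑ m ∈ Finset.range p, X ^ m) * (1 - X ^ q)) =
      ∑ m ∈ Finset.range p, ((X : ℤ[X]) ^ (r * v + m) - X ^ (r * v + m + q)) := by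
    rw [map_pow, expand_X, ← pow_mul, Finset.sum_mul, Finset.mul_sum]
    refine Finset.sum_congr rfl fun m _ => ?_
    rw [pow_add, pow_add, pow_add]
    ring
  rw [h1, finsetSum_coeff, hf]
  refine Finset.sum_congr rfl fun m _ => ?_
  rw [coeff_sub, coeff_X_pow, coeff_X_pow]

theorem coeff_BB (n : ℕ) : (expand ℤ r (BB p q μ lam) * ((∑ m ∈ Finset.range p, X ^ m) *
    (1 - X ^ q))).coeff n = blk p q μ lam (fun v => hf p q r n v) := by
  simp only [BB, map_sub, map_sum, sub_mul, Finset.sum_mul, coeff_sub, finsetSum_coeff, blk]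
  simp only [← Finset.sum_mul, coeff_one]

theorem coeff_eq (hp : p.Prime) (hq : q.Prime) (hr : r.Prime) (hpq : p ≠ q) (hpr : p ≠ r)
    (hqr : q ≠ r) (hμ : μ * p + lam * q = p * q + 1) (hμq : μ ≤ q) (hl : lam ≤ p)
    (hs : p + q ≤ p * q) (n : ℕ) :
    (cyclotomic (p * q * r) ℤ).coeff n = blk p q μ lam (fun v => kf p q r n v) := by
  induction n using Nat.strong_induction_on with
  | _ n ih =>
  have h1 : (cyclotomic (p * q * r) ℤ * (1 - X ^ (p * q))).coeff n =
      (expand ℤ r (cyclotomic (p * q) ℤ) * ((∑ m ∈ Finset.range p, X ^ m) * (1 - X ^ q))).coeff n := by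
    rw [phi_pqr hp hq hr hpq hpr hqr]
  rw [phi_eq hp hq hpq hμ hμq hl, coeff_BB, mul_sub, mul_one, coeff_sub, coeff_mul_X_pow'] at h1
  have h2 : blk p q μ lam (fun v => kf p q r n v) = blk p q μ lam (fun v => hf p q r n v) +
      blk p q μ lam (fun v => if p * q ≤ n then kf p q r (n - p * q) v else 0) := by
    rw [← blk_add]
    congr 1
    funext v
    exact kf_rec hs n v
  rw [h2, ← h1]
  by_cases h3 : p * q ≤ n
  · simp only [if_pos h3]
    rw [ih (n - p * q) (by have := Nat.mul_pos hp.pos hq.pos; omega)]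
    ring
  · simp only [if_neg h3]
    simp [blk]

/-- the coefficient at the point with the coordinates `x`, `y`, cut off at `n` -/
def FF (p q r μ lam n x y : ℕ) : ℤ :=
  if x < μ ∧ y < lam ∧ r * (x * p + y * q) ≤ n then 1 else
    if μ ≤ x ∧ lam ≤ y ∧ r * (x * p + y * q) ≤ n + r * (p * q) then -1 else 0

/-- the periodic sum -/
def per (p q r n x y : ℕ) : ℤ :=
  ∑ m ∈ Finset.range p, ((if ((p * q : ℕ) : ℤ) ∣ (n : ℤ) - r * (x * p + y * q) - m then 1 else 0) -
      (if ((p * q : ℕ) : ℤ) ∣ (n : ℤ) - r * (x * p + y * q) - m - q then 1 else 0))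

theorem blk_eq (hμ : μ * p + lam * q = p * q + 1) (hμq : μ ≤ q) (hl : lam ≤ p) (n : ℕ) :
    blk p q μ lam (fun v => kf p q r n v) =
      ∑ x ∈ Finset.range q, ∑ y ∈ Finset.range p, FF p q r μ lam n x y * per p q r n x y := by
  have hsplit : ∀ G : ℕ → ℕ → ℤ, ∑ x ∈ Finset.range q, ∑ y ∈ Finset.range p, G x y =
      ∑ x ∈ Finset.range μ, (∑ y ∈ Finset.range lam, G x y +
        ∑ y ∈ Finset.range (p - lam), G x (lam + y)) +
      ∑ x ∈ Finset.range (q - μ), (∑ y ∈ Finset.range lam, G (μ + x) y +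
        ∑ y ∈ Finset.range (p - lam), G (μ + x) (lam + y)) := by
    intro G
    have h1 : ∀ g : ℕ → ℤ, ∑ y ∈ Finset.range p, g y = ∑ y ∈ Finset.range lam, g y +
        ∑ y ∈ Finset.range (p - lam), g (lam + y) := by
      intro g
      conv_lhs => rw [← Nat.add_sub_cancel' hl]
      rw [Finset.sum_range_add]
    conv_lhs => rw [← Nat.add_sub_cancel' hμq]
    rw [Finset.sum_range_add]
    simp only [h1]
  rw [hsplit, blk, sub_eq_add_neg, ← Finset.sum_neg_distrib]
  congr 1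
  · refine Finset.sum_congr rfl fun x hx => ?_
    rw [Finset.mem_range] at hx
    have h1 : ∑ y ∈ Finset.range (p - lam), FF p q r μ lam n x (lam + y) *
        per p q r n x (lam + y) = 0 := by
      refine Finset.sum_eq_zero fun y _ => ?_
      rw [FF, if_neg (by omega), if_neg (by omega), zero_mul]
    rw [h1, add_zero]
    refine Finset.sum_congr rfl fun y hy => ?_
    rw [Finset.mem_range] at hy
    rw [FF, kf, per]
    by_cases h2 : r * (x * p + y * q) ≤ n
    · rw [if_pos h2, if_pos ⟨hx, hy, h2⟩, one_mul]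
      push_cast
      rfl
    · rw [if_neg h2, if_neg (by tauto), if_neg (by omega), zero_mul]
  · refine Finset.sum_congr rfl fun x hx => ?_
    rw [Finset.mem_range] at hx
    have h1 : ∑ y ∈ Finset.range lam, FF p q r μ lam n (μ + x) y * per p q r n (μ + x) y = 0 := by
      refine Finset.sum_eq_zero fun y hy => ?_
      rw [Finset.mem_range] at hy
      rw [FF, if_neg (by omega), if_neg (by omega), zero_mul]
    rw [h1, zero_add, ← Finset.sum_neg_distrib]
    refine Finset.sum_congr rfl fun y hy => ?_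
    have h2 : (μ + x) * p + (lam + y) * q = p * q + (1 + x * p + y * q) := by
      rw [add_mul, add_mul]
      omega
    have h3 : r * ((μ + x) * p + (lam + y) * q) ≤ n + r * (p * q) ↔
        r * (1 + x * p + y * q) ≤ n := by
      rw [h2, mul_add]
      omega
    have h4 : per p q r n (μ + x) (lam + y) = ∑ m ∈ Finset.range p,
        ((if ((p * q : ℕ) : ℤ) ∣ (n : ℤ) - r * ((1 + x * p + y * q : ℕ) : ℤ) - m then 1 else 0) -
        (if ((p * q : ℕ) : ℤ) ∣ (n : ℤ) - r * ((1 + x * p + y * q : ℕ) : ℤ) - m - q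
          then 1 else 0)) := by
      rw [per]
      refine Finset.sum_congr rfl fun m _ => ?_
      have h5 : ((μ + x : ℕ) : ℤ) * p + ((lam + y : ℕ) : ℤ) * q =
          (p * q : ℕ) + ((1 + x * p + y * q : ℕ) : ℤ) := by exact_mod_cast h2
      have e1 : (n : ℤ) - r * (((μ + x : ℕ) : ℤ) * p + ((lam + y : ℕ) : ℤ) * q) - m =
          ((n : ℤ) - r * ((1 + x * p + y * q : ℕ) : ℤ) - m) + (p * q : ℕ) * (-(r : ℤ)) := by
        rw [h5]; ring
      have e2 : (n : ℤ) - r * (((μ + x : ℕ) : ℤ) * p + ((lam + y : ℕ) : ℤ) * q) - m - q =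
          ((n : ℤ) - r * ((1 + x * p + y * q : ℕ) : ℤ) - m - q) + (p * q : ℕ) * (-(r : ℤ)) := by
        rw [h5]; ring
      have e3 : ∀ z : ℤ, (((p * q : ℕ) : ℤ) ∣ z + (p * q : ℕ) * (-(r : ℤ))) ↔
          ((p * q : ℕ) : ℤ) ∣ z := fun z => (dvd_add_left (Dvd.intro _ rfl))
      rw [e2, e1]
      simp only [e3]
    rw [h4, FF, if_neg (by omega), kf]
    by_cases h6 : r * (1 + x * p + y * q) ≤ n
    · rw [if_pos h6, if_pos ⟨by omega, by omega, h3.2 h6⟩, neg_one_mul]
    · rw [if_neg h6, if_neg (fun h => h6 (h3.1 h.2.2)), zero_mul, neg_zero]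

theorem uniq (hp : p.Prime) (hq : q.Prime) (hr : r.Prime) (hpq : p ≠ q) (hpr : p ≠ r)
    (hqr : q ≠ r) {x y x' y' : ℕ} (hx : x < q) (hx' : x' < q) (hy : y < p) (hy' : y' < p)
    (h : ((p * q : ℕ) : ℤ) ∣ r * (x * p + y * q) - r * (x' * p + y' * q)) : x = x' ∧ y = y' := by
  have hp' : Prime (p : ℤ) := Nat.prime_iff_prime_int.1 hp
  have hq' : Prime (q : ℤ) := Nat.prime_iff_prime_int.1 hq
  have h1 : (p : ℤ) ∣ r * (x * p + y * q) - r * (x' * p + y' * q) :=
    dvd_trans ⟨(q : ℤ), by push_cast; ring⟩ h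
  have h2 : (q : ℤ) ∣ r * (x * p + y * q) - r * (x' * p + y' * q) :=
    dvd_trans ⟨(p : ℤ), by push_cast; ring⟩ h
  have hndp : ¬ (p : ℤ) ∣ r := fun h => hpr ((Nat.prime_dvd_prime_iff_eq hp hr).1
    (Int.natCast_dvd_natCast.1 h))
  have hndq : ¬ (q : ℤ) ∣ r := fun h => hqr ((Nat.prime_dvd_prime_iff_eq hq hr).1
    (Int.natCast_dvd_natCast.1 h))
  have hndpq : ¬ (p : ℤ) ∣ q := fun h => hpq ((Nat.prime_dvd_prime_iff_eq hp hq).1
    (Int.natCast_dvd_natCast.1 h))
  have hndqp : ¬ (q : ℤ) ∣ p := fun h => hpq ((Nat.prime_dvd_prime_iff_eq hq hp).1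
    (Int.natCast_dvd_natCast.1 h)).symm
  constructor
  · have h3 : (q : ℤ) ∣ r * (p * ((x : ℤ) - x')) := by
      have e : (r : ℤ) * (p * ((x : ℤ) - x')) = (r * (x * p + y * q) - r * (x' * p + y' * q)) -
          q * (r * ((y : ℤ) - y')) := by ring
      rw [e]
      exact dvd_sub h2 (Dvd.intro _ rfl)
    rcases hq'.dvd_or_dvd h3 with h4 | h4
    · exact absurd h4 hndq
    rcases hq'.dvd_or_dvd h4 with h5 | h5
    · exact absurd h5 hndqp
    have h6 : (x : ℤ) - x' = 0 := Int.eq_zero_of_abs_lt_dvd h5 (by rw [abs_lt]; constructor <;> omega)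
    omega
  · have h3 : (p : ℤ) ∣ r * (q * ((y : ℤ) - y')) := by
      have e : (r : ℤ) * (q * ((y : ℤ) - y')) = (r * (x * p + y * q) - r * (x' * p + y' * q)) -
          p * (r * ((x : ℤ) - x')) := by ring
      rw [e]
      exact dvd_sub h1 (Dvd.intro _ rfl)
    rcases hp'.dvd_or_dvd h3 with h4 | h4
    · exact absurd h4 hndp
    rcases hp'.dvd_or_dvd h4 with h5 | h5
    · exact absurd h5 hndpq
    have h6 : (y : ℤ) - y' = 0 := Int.eq_zero_of_abs_lt_dvd h5 (by rw [abs_lt]; constructor <;> omega)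
    omega

theorem pick (hp : p.Prime) (hq : q.Prime) (hr : r.Prime) (hpq : p ≠ q) (hpr : p ≠ r)
    (hqr : q ≠ r) (n x0 y0 : ℕ) (c : ℤ) (hx : x0 < q) (hy : y0 < p)
    (h : ((p * q : ℕ) : ℤ) ∣ (n : ℤ) - r * (x0 * p + y0 * q) - c) (F : ℕ → ℕ → ℤ) :
    ∑ x ∈ Finset.range q, ∑ y ∈ Finset.range p, F x y *
      (if ((p * q : ℕ) : ℤ) ∣ (n : ℤ) - r * (x * p + y * q) - c then 1 else 0) = F x0 y0 := by
  have hu : ∀ x < q, ∀ y < p, ((p * q : ℕ) : ℤ) ∣ (n : ℤ) - r * (x * p + y * q) - c →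
      x = x0 ∧ y = y0 := by
    intro x hx1 y hy1 h1
    apply uniq hp hq hr hpq hpr hqr hx1 hx hy1 hy
    have h2 := dvd_sub h h1
    have e : (n : ℤ) - r * (x0 * p + y0 * q) - c - ((n : ℤ) - r * (x * p + y * q) - c) =
      r * (x * p + y * q) - r * (x0 * p + y0 * q) := by ring
    rwa [e] at h2
  rw [Finset.sum_eq_single x0, Finset.sum_eq_single y0, if_pos h, mul_one]
  · intro y hy1 hne
    rw [if_neg fun h1 => hne (hu x0 hx y (Finset.mem_range.1 hy1) h1).2, mul_zero]
  · intro h1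
    exact absurd (Finset.mem_range.2 hy) h1
  · intro x hx1 hne
    refine Finset.sum_eq_zero fun y hy1 => ?_
    rw [if_neg fun h1 => hne (hu x (Finset.mem_range.1 hx1) y (Finset.mem_range.1 hy1) h1).1,
      mul_zero]
  · intro h1
    exact absurd (Finset.mem_range.2 hx) h1

/-- the coefficient of `Φ_{pqr}` as a sum over `p` columns -/
theorem kap (hp : p.Prime) (hq : q.Prime) (hr : r.Prime) (hpq : p ≠ q) (hpr : p ≠ r)
    (hqr : q ≠ r) (hμ : μ * p + lam * q = p * q + 1) (hμq : μ ≤ q) (hl : lam ≤ p)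
    (hs : p + q ≤ p * q) (n : ℕ) (xm ym ym' : ℕ → ℕ)
    (h : ∀ m < p, xm m < q ∧ ym m < p ∧ ym' m < p ∧
      ((p * q : ℕ) : ℤ) ∣ (n : ℤ) - r * (xm m * p + ym m * q) - m ∧
      ((p * q : ℕ) : ℤ) ∣ (n : ℤ) - r * (xm m * p + ym' m * q) - (m + q)) :
    (cyclotomic (p * q * r) ℤ).coeff n = ∑ m ∈ Finset.range p,
      (FF p q r μ lam n (xm m) (ym m) - FF p q r μ lam n (xm m) (ym' m)) := by
  rw [coeff_eq hp hq hr hpq hpr hqr hμ hμq hl hs, blk_eq hμ hμq hl]
  have h1 : ∀ x y, FF p q r μ lam n x y * per p q r n x y = ∑ m ∈ Finset.range p,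
      (FF p q r μ lam n x y *
        (if ((p * q : ℕ) : ℤ) ∣ (n : ℤ) - r * (x * p + y * q) - m then 1 else 0) -
      FF p q r μ lam n x y *
        (if ((p * q : ℕ) : ℤ) ∣ (n : ℤ) - r * (x * p + y * q) - (m + q) then 1 else 0)) := by
    intro x y
    rw [per, Finset.mul_sum]
    refine Finset.sum_congr rfl fun m _ => ?_
    rw [mul_sub, sub_sub _ (m : ℤ) (q : ℤ)]
  simp only [h1]
  have h2 : ∀ x ∈ Finset.range q, (∑ y ∈ Finset.range p, ∑ m ∈ Finset.range p,
      (FF p q r μ lam n x y *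
        (if ((p * q : ℕ) : ℤ) ∣ (n : ℤ) - r * (x * p + y * q) - m then 1 else 0) -
      FF p q r μ lam n x y *
        (if ((p * q : ℕ) : ℤ) ∣ (n : ℤ) - r * (x * p + y * q) - (m + q) then 1 else 0))) =
      ∑ m ∈ Finset.range p, ∑ y ∈ Finset.range p, (FF p q r μ lam n x y *
        (if ((p * q : ℕ) : ℤ) ∣ (n : ℤ) - r * (x * p + y * q) - m then 1 else 0) -
      FF p q r μ lam n x y *
        (if ((p * q : ℕ) : ℤ) ∣ (n : ℤ) - r * (x * p + y * q) - (m + q) then 1 else 0)) :=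
    fun x _ => Finset.sum_comm
  rw [Finset.sum_congr rfl h2, Finset.sum_comm]
  refine Finset.sum_congr rfl fun m hm => ?_
  obtain ⟨a1, a2, a3, a4, a5⟩ := h m (Finset.mem_range.1 hm)
  simp only [Finset.sum_sub_distrib]
  rw [pick hp hq hr hpq hpr hqr n (xm m) (ym m) m a1 a2 a4,
    pick hp hq hr hpq hpr hqr n (xm m) (ym' m) (m + q) a1 a3 a5]

end Pool.Agent.Q277.TC
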