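import Pool.Agent.Q277.TC.Up

/-!
The two arithmetic progressions of points which give a coefficient `± λ`.
-/

set_option autoImplicit false

open Polynomial

namespace Pool.Agent.Q277.TC

variable {p q r μ lam e δ n T : ℕ}

theorem FF_val {x y : ℕ} (h1 : r * T ≤ n) (h2 : n < r * (T + 1)) :
    FF p q r μ lam n x y = if x < μ ∧ y < lam ∧ x * p + y * q ≤ T then 1 else
      if μ ≤ x ∧ lam ≤ y ∧ x * p + y * q ≤ T + p * q then -1 else 0 := by
  have e1 : ∀ v, r * v ≤ n ↔ v ≤ T := by
    intro v
    constructor
    · intro h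
      have h3 : r * v < r * (T + 1) := lt_of_le_of_lt h h2
      exact Nat.lt_succ_iff.1 (Nat.lt_of_mul_lt_mul_left h3)
    · intro h
      exact (Nat.mul_le_mul_left r h).trans h1
  have e2 : ∀ v, r * v ≤ n + r * (p * q) ↔ v ≤ T + p * q := by
    intro v
    constructor
    · intro h
      have h3 : r * v < r * (T + p * q + 1) := by
        have e : r * (T + p * q + 1) = r * (T + 1) + r * (p * q) := by ring
        rw [e]
        omega
      exact Nat.lt_succ_iff.1 (Nat.lt_of_mul_lt_mul_left h3)
    · intro h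
      have := Nat.mul_le_mul_left r h
      rw [mul_add] at this
      omega
  simp only [FF, e1, e2]

/-- the `x`-coordinates -/
def xx (p μ lam e m : ℕ) : ℕ := μ - 1 + e * (p - lam) - e * m

/-- the `y`-coordinates of the first kind -/
def yA (p lam m : ℕ) : ℕ := if m < p - lam then lam + m else lam + m - p

/-- the `y`-coordinates of the second kind -/
def yB (p lam δ m : ℕ) : ℕ :=
  if m + lam + δ < 2 * p then lam + m + δ - p else lam + m + δ - 2 * p

theorem xx_eq (he : e * (lam - 1) ≤ μ - 1) (hμ1 : 1 ≤ μ) (hl : 1 ≤ lam) (hlp : lam ≤ p)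
    {m : ℕ} (hm : m < p) : ((xx p μ lam e m : ℕ) : ℤ) = μ - 1 + e * ((p : ℤ) - lam - m) := by
  have h1 : e * m ≤ e * (p - lam) + e * (lam - 1) := by
    rw [← mul_add]
    exact Nat.mul_le_mul_left _ (by omega)
  rw [xx, Nat.cast_sub (by omega), Nat.cast_add, Nat.cast_sub hμ1, Nat.cast_mul, Nat.cast_mul,
    Nat.cast_sub hlp]
  push_cast
  ring

theorem sum_lt {a : ℕ} (ha : a ≤ p) :
    ∑ m ∈ Finset.range p, (if m < a then (1 : ℤ) else 0) = a := by
  rw [Finset.sum_boole]
  have h1 : (Finset.range p).filter (fun m => m < a) = Finset.range a := by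
    ext m
    simp only [Finset.mem_filter, Finset.mem_range]
    omega
  rw [h1, Finset.card_range]

theorem sumA (h1 : r * T ≤ n) (h2 : n < r * (T + 1)) (hT : T + 1 = (μ - 1) * p)
    (hμ1 : 1 ≤ μ) (hl : 1 ≤ lam) (hlp : lam < p) (he0 : 1 ≤ e) (hep : e * p < q)
    (he : e * (lam - 1) ≤ μ - 1) :
    ∑ m ∈ Finset.range p, FF p q r μ lam n (xx p μ lam e m) (yA p lam m) = (lam : ℤ) - p := by
  have hT' : (T : ℤ) + 1 = (μ - 1) * p := by
    have : ((T + 1 : ℕ) : ℤ) = ((μ - 1) * p : ℕ) := by rw [hT]
    rw [Nat.cast_mul, Nat.cast_sub hμ1] at this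
    push_cast at this
    exact this
  have hval : ∀ m ∈ Finset.range p, FF p q r μ lam n (xx p μ lam e m) (yA p lam m) =
      -(if m < p - lam then (1 : ℤ) else 0) := by
    intro m hm
    rw [Finset.mem_range] at hm
    have hX := xx_eq he hμ1 hl hlp.le hm
    rw [FF_val h1 h2]
    generalize xx p μ lam e m = X at hX ⊢
    by_cases hc : m < p - lam
    · have hy : yA p lam m = lam + m := by rw [yA, if_pos hc]
      rw [hy, if_pos hc]
      have ht : (1 : ℤ) ≤ (p : ℤ) - lam - m := by omega
      have hd : (1 : ℤ) ≤ (q : ℤ) - e * p := by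
        have : ((e * p : ℕ) : ℤ) < q := by exact_mod_cast hep
        push_cast at this
        omega
      have hXμ : μ ≤ X := by
        have : (1 : ℤ) * 1 ≤ e * ((p : ℤ) - lam - m) :=
          mul_le_mul (by exact_mod_cast he0) ht (by norm_num) (by positivity)
        omega
      have hv : (X : ℤ) * p + (lam + m) * q = T + 1 + p * q - (p - lam - m) * (q - e * p) := by
        rw [hX]
        linear_combination -hT'
      have hv2 : X * p + (lam + m) * q ≤ T + p * q := by
        have : (1 : ℤ) * 1 ≤ (p - lam - m) * (q - e * p) := mul_le_mul ht hd (by norm_num) (by omega)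
        zify
        linarith
      rw [if_neg (by omega), if_pos ⟨hXμ, by omega, hv2⟩]
    · have hy : yA p lam m = lam + m - p := by rw [yA, if_neg hc]
      rw [hy, if_neg hc]
      have ht : (0 : ℤ) ≤ -((p : ℤ) - lam - m) := by omega
      have hd : (1 : ℤ) ≤ (q : ℤ) - e * p := by
        have : ((e * p : ℕ) : ℤ) < q := by exact_mod_cast hep
        push_cast at this
        omega
      have hXμ : X < μ := by
        have : (0 : ℤ) ≤ e * (-((p : ℤ) - lam - m)) := mul_nonneg (by positivity) ht
        rw [mul_neg] at this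
        omega
      have hyc : ((lam + m - p : ℕ) : ℤ) = lam + m - p := by
        rw [Nat.cast_sub (by omega)]
        push_cast
        ring
      have hv : (X : ℤ) * p + ((lam + m - p : ℕ) : ℤ) * q = T + 1 +
          -(p - lam - m) * (q - e * p) := by
        rw [hX, hyc]
        linear_combination -hT'
      have hv2 : ¬ X * p + (lam + m - p) * q ≤ T := by
        intro h
        have : (0 : ℤ) ≤ -(p - lam - m) * (q - e * p) := mul_nonneg ht (by omega)
        have h3 : (X : ℤ) * p + ((lam + m - p : ℕ) : ℤ) * q ≤ T := by exact_mod_cast h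
        linarith
      rw [if_neg (fun h => hv2 h.2.2), if_neg (by omega)]
      rfl
  rw [Finset.sum_congr rfl hval, Finset.sum_neg_distrib, sum_lt (by omega),
    Nat.cast_sub hlp.le]
  ring

theorem sumB (h1 : r * T ≤ n) (h2 : n < r * (T + 1)) (hT : T + 1 = (μ - 1) * p)
    (hμ1 : 1 ≤ μ) (hl : 1 ≤ lam) (hlp : lam < p) (he0 : 1 ≤ e) (hep : e * p < q)
    (he : e * (lam - 1) ≤ μ - 1) (hp2 : p < 2 * lam) (hδ1 : lam ≤ δ) (hδ2 : δ + 2 * lam ≤ 2 * p)
    (hI : (lam + δ - 1 - p) * q + 1 ≤ e * p * (lam - 1)) :
    ∑ m ∈ Finset.range p, FF p q r μ lam n (xx p μ lam e m) (yB p lam δ m) =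
      2 * (lam : ℤ) - p := by
  have hT' : (T : ℤ) + 1 = (μ - 1) * p := by
    have : ((T + 1 : ℕ) : ℤ) = ((μ - 1) * p : ℕ) := by rw [hT]
    rw [Nat.cast_mul, Nat.cast_sub hμ1] at this
    push_cast at this
    exact this
  have hd : (1 : ℤ) ≤ (q : ℤ) - e * p := by
    have : ((e * p : ℕ) : ℤ) < q := by exact_mod_cast hep
    push_cast at this
    omega
  have hI' : ((lam : ℤ) + δ - 1 - p) * q + 1 ≤ e * p * (lam - 1) := by
    have h3 : (((lam + δ - 1 - p) * q + 1 : ℕ) : ℤ) ≤ ((e * p * (lam - 1) : ℕ) : ℤ) := by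
      exact_mod_cast hI
    have h4 : ((lam + δ - 1 - p : ℕ) : ℤ) = lam + δ - 1 - p := by omega
    have h5 : ((lam - 1 : ℕ) : ℤ) = lam - 1 := by omega
    rw [Nat.cast_add, Nat.cast_mul, Nat.cast_mul, h4, h5] at h3
    push_cast at h3
    exact h3
  have hval : ∀ m ∈ Finset.range p, FF p q r μ lam n (xx p μ lam e m) (yB p lam δ m) =
      -(if m < p - lam then (1 : ℤ) else 0) + (if m < p - δ then (1 : ℤ) else 0) + 1 -
        (if m < 2 * p - lam - δ then (1 : ℤ) else 0) := by
    intro m hm
    rw [Finset.mem_range] at hm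
    have hX := xx_eq he hμ1 hl hlp.le hm
    rw [FF_val h1 h2]
    generalize xx p μ lam e m = X at hX ⊢
    by_cases hc : m + lam + δ < 2 * p
    · have hy : yB p lam δ m = lam + m + δ - p := by rw [yB, if_pos hc]
      rw [hy]
      by_cases hc2 : m < p - lam
      · have ht : (1 : ℤ) ≤ (p : ℤ) - lam - m := by omega
        have hXμ : μ ≤ X := by
          have : (1 : ℤ) * 1 ≤ e * ((p : ℤ) - lam - m) :=
            mul_le_mul (by exact_mod_cast he0) ht (by norm_num) (by positivity)
          omega
        have hyc : ((lam + m + δ - p : ℕ) : ℤ) = lam + m + δ - p := by omega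
        have hv : (X : ℤ) * p + ((lam + m + δ - p : ℕ) : ℤ) * q = T + 1 + δ * q -
            (p - lam - m) * (q - e * p) := by
          rw [hX, hyc]
          linear_combination -hT'
        have hv2 : X * p + (lam + m + δ - p) * q ≤ T + p * q := by
          have h5 : (1 : ℤ) * 1 ≤ (p - lam - m) * (q - e * p) :=
            mul_le_mul ht hd (by norm_num) (by omega)
          have h6 : (δ : ℤ) * q ≤ p * q := by
            have : δ * q ≤ p * q := Nat.mul_le_mul_right _ (by omega)
            exact_mod_cast this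
          zify
          rw [hv]
          linarith
        by_cases hc3 : m < p - δ
        · rw [if_neg (by omega), if_neg (by omega), if_pos hc2, if_pos hc3, if_pos (by omega)]
          norm_num
        · rw [if_neg (by omega), if_pos ⟨hXμ, by omega, hv2⟩, if_pos hc2, if_neg hc3,
            if_pos (by omega)]
          norm_num
      · have ht : (0 : ℤ) ≤ -((p : ℤ) - lam - m) := by omega
        have hXμ : X < μ := by
          have : (0 : ℤ) ≤ e * (-((p : ℤ) - lam - m)) := mul_nonneg (by positivity) ht
          rw [mul_neg] at this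
          omega
        rw [if_neg (by omega), if_neg (by omega), if_neg hc2, if_neg (by omega), if_pos (by omega)]
        norm_num
    · have hy : yB p lam δ m = lam + m + δ - 2 * p := by rw [yB, if_neg hc]
      have ht : (0 : ℤ) ≤ -((p : ℤ) - lam - m) := by omega
      have hXμ : X < μ := by
        have : (0 : ℤ) ≤ e * (-((p : ℤ) - lam - m)) := mul_nonneg (by positivity) ht
        rw [mul_neg] at this
        omega
      have hyc : ((lam + m + δ - 2 * p : ℕ) : ℤ) = lam + m + δ - 2 * p := by omega
      have hv : (X : ℤ) * p + ((lam + m + δ - 2 * p : ℕ) : ℤ) * q = T + 1 + (δ - p) * q +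
          -(p - lam - m) * (q - e * p) := by
        rw [hX, hyc]
        linear_combination -hT'
      have hv2 : X * p + (lam + m + δ - 2 * p) * q ≤ T := by
        have h5 : -((p : ℤ) - lam - m) * (q - e * p) ≤ (lam - 1) * (q - e * p) :=
          mul_le_mul_of_nonneg_right (by omega) (by omega)
        zify
        rw [hv]
        have h6 : ((lam : ℤ) - 1) * (q - e * p) + (δ - p) * q + 1 ≤ 0 := by
          have e9 : ((lam : ℤ) - 1) * (q - e * p) + (δ - p) * q + 1 =
            (((lam : ℤ) + δ - 1 - p) * q + 1) - e * p * (lam - 1) := by ring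
          rw [e9]
          linarith
        linarith
      rw [hy, if_pos ⟨hXμ, by omega, hv2⟩, if_neg (by omega), if_neg (by omega), if_neg (by omega)]
      norm_num
  rw [Finset.sum_congr rfl hval, Finset.sum_sub_distrib, Finset.sum_add_distrib,
    Finset.sum_add_distrib, Finset.sum_neg_distrib, sum_lt (by omega), sum_lt (by omega),
    sum_lt (by omega)]
  simp only [Finset.sum_const, Finset.card_range, nsmul_eq_mul, mul_one]
  omega

end Pool.Agent.Q277.TC
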