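import Pool.Agent.Q277.TC.Kap

/-!
The upper bound `|a| ≤ max (λ, p - λ)`.
-/

set_option autoImplicit false

open Polynomial

namespace Pool.Agent.Q277.TC

variable {p q r μ lam : ℕ}

/-- one column -/
theorem col {n x y y' δ : ℕ} (hy : y < p) (hδ : 0 < δ) (hδp : δ < p)
    (hs : y' = y + δ ∨ y' + p = y + δ) :
    FF p q r μ lam n x y - FF p q r μ lam n x y' ≤
      if δ ≤ lam then (if y < lam then 1 else 0) else (if lam ≤ y' then 1 else 0) := by
  have h1 : y ≤ y' → r * (x * p + y * q) ≤ r * (x * p + y' * q) := fun h =>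
    Nat.mul_le_mul_left _ (Nat.add_le_add_left (Nat.mul_le_mul_right _ h) _)
  have h2 : y' ≤ y → r * (x * p + y' * q) ≤ r * (x * p + y * q) := fun h =>
    Nat.mul_le_mul_left _ (Nat.add_le_add_left (Nat.mul_le_mul_right _ h) _)
  simp only [FF]
  generalize r * (x * p + y * q) = a at *
  generalize r * (x * p + y' * q) = b at *
  generalize r * (p * q) = c at *
  split_ifs <;> omega

theorem coords (hp : p.Prime) (hq : q.Prime) (hr : r.Prime) (hpr : p ≠ r)
    (hqr : q ≠ r) (hμ : μ * p + lam * q = p * q + 1) (n : ℕ) :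
    ∃ (xm ym ym' : ℕ → ℕ) (δ : ℕ), 0 < δ ∧ δ < p ∧ (∀ m < p, xm m < q ∧ ym m < p ∧ ym' m < p ∧
      ((p * q : ℕ) : ℤ) ∣ (n : ℤ) - r * (xm m * p + ym m * q) - m ∧
      ((p * q : ℕ) : ℤ) ∣ (n : ℤ) - r * (xm m * p + ym' m * q) - (m + q)) ∧
      (∀ m < p, ym' m = ym m + δ ∨ ym' m + p = ym m + δ) ∧
      Set.InjOn ym (Finset.range p : Set ℕ) ∧ Set.InjOn ym' (Finset.range p : Set ℕ) := by
  have hcop : Nat.Coprime r (p * q) := Nat.Coprime.mul_right
    ((Nat.coprime_primes hr hp).2 hpr.symm) ((Nat.coprime_primes hr hq).2 hqr.symm)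
  obtain ⟨R, b, hR⟩ := Nat.isCoprime_iff_coprime.2 hcop
  have hp' : Prime (p : ℤ) := Nat.prime_iff_prime_int.1 hp
  have hμ' : (μ : ℤ) * p + lam * q = p * q + 1 := by exact_mod_cast hμ
  have hRp : ¬ (p : ℤ) ∣ R := by
    intro h
    apply hp'.not_dvd_one
    rw [← hR]
    exact dvd_add (Dvd.dvd.mul_right h _) ⟨b * q, by push_cast; ring⟩
  have hlp : ¬ (p : ℤ) ∣ lam := by
    intro h
    apply hp'.not_dvd_one
    have e : (1 : ℤ) = lam * q - p * (q - μ) := by linear_combination -hμ'
    rw [e]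
    exact dvd_sub (Dvd.dvd.mul_right h _) (Dvd.intro _ rfl)
  have hp0 : (0 : ℤ) < p := by exact_mod_cast hp.pos
  have hq0 : (0 : ℤ) < q := by exact_mod_cast hq.pos
  have key : ∀ (A : ℤ) (s : ℕ), (0 : ℤ) < s → ∃ w : ℕ, w < s ∧ ∃ u : ℤ, (w : ℤ) = A - s * u := by
    intro A s hs
    refine ⟨(A % s).toNat, ?_, A / s, ?_⟩
    · have := Int.emod_lt_of_pos A hs
      have h0 := Int.emod_nonneg A hs.ne'
      omega
    · rw [Int.toNat_of_nonneg (Int.emod_nonneg A hs.ne')]
      have := Int.emod_add_mul_ediv A s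
      linarith
  choose xm hxm ux hux using fun m : ℕ => key (μ * R * (n - m)) q hq0
  choose ym hym uy huy using fun m : ℕ => key (lam * R * (n - m)) p hp0
  choose ym' hym' uy' huy' using fun m : ℕ => key (lam * R * (n - m) - R) p hp0
  obtain ⟨δ, hδ, ud, hud⟩ := key (-R) p hp0
  have hδ0 : 0 < δ := by
    rcases Nat.eq_zero_or_pos δ with h | h
    · exfalso
      rw [h] at hud
      apply hRp
      exact ⟨-ud, by push_cast at hud; linarith⟩
    · exact h
  have hrel : ∀ m < p, ym' m = ym m + δ ∨ ym' m + p = ym m + δ := by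
    intro m _
    have h1 := huy m
    have h2 := huy' m
    have h3 : (ym' m : ℤ) - ym m - δ = p * (uy m - uy' m + ud) := by
      rw [h1, h2, hud]; ring
    have h4 := hym m
    have h5 := hym' m
    have h6 : uy m - uy' m + ud < 1 := by
      by_contra h
      push Not at h
      have : (p : ℤ) * 1 ≤ p * (uy m - uy' m + ud) := mul_le_mul_of_nonneg_left h hp0.le
      omega
    have h7 : -2 < uy m - uy' m + ud := by
      by_contra h
      push Not at h
      have : (p : ℤ) * (uy m - uy' m + ud) ≤ p * (-2) := mul_le_mul_of_nonneg_left h hp0.le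
      omega
    have h8 : uy m - uy' m + ud = 0 ∨ uy m - uy' m + ud = -1 := by omega
    rcases h8 with h8 | h8
    · left
      rw [h8] at h3
      omega
    · right
      rw [h8] at h3
      omega
  have hinj : Set.InjOn ym (Finset.range p : Set ℕ) := by
    intro m hm m' hm' h
    rw [Finset.mem_coe, Finset.mem_range] at hm hm'
    have h1 : ((p : ℤ)) ∣ lam * (R * ((m' : ℤ) - m)) := by
      refine ⟨uy m - uy m', ?_⟩
      have h2 := huy m
      have h3 := huy m'
      have h4 : (ym m : ℤ) = ym m' := by exact_mod_cast h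
      rw [h2, h3] at h4
      linear_combination h4
    rcases hp'.dvd_or_dvd h1 with h2 | h2
    · exact absurd h2 hlp
    rcases hp'.dvd_or_dvd h2 with h3 | h3
    · exact absurd h3 hRp
    have h6 : (m' : ℤ) - m = 0 := Int.eq_zero_of_abs_lt_dvd h3 (by rw [abs_lt]; constructor <;> omega)
    omega
  refine ⟨xm, ym, ym', δ, hδ0, hδ, ?_, hrel, hinj, ?_⟩
  · intro m hm
    refine ⟨hxm m, hym m, hym' m, ?_, ?_⟩
    · refine ⟨(n - m) * (b - r * R) + r * (ux m + uy m), ?_⟩
      rw [hux m, huy m]
      push_cast at hR ⊢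
      linear_combination (-(r : ℤ) * R * (n - m)) * hμ' - (n - m : ℤ) * hR
    · refine ⟨(n - m) * (b - r * R) + r * (ux m + uy' m) - q * b, ?_⟩
      rw [hux m, huy' m]
      push_cast at hR ⊢
      linear_combination (-(r : ℤ) * R * (n - m)) * hμ' - (n - m - q : ℤ) * hR
  · intro m hm m' hm' h
    have h1 := hrel m (Finset.mem_range.1 hm)
    have h2 := hrel m' (Finset.mem_range.1 hm')
    have h3 := hym m
    have h4 := hym m'
    apply hinj hm hm'
    omega

/-- the upper bound -/
theorem upper (hp : p.Prime) (hq : q.Prime) (hr : r.Prime) (hpq : p ≠ q) (hpr : p ≠ r)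
    (hqr : q ≠ r) (hμ : μ * p + lam * q = p * q + 1) (hμq : μ ≤ q) (hl : lam ≤ p)
    (hs : p + q ≤ p * q) (hm : p ≤ 2 * lam) (n : ℕ) :
    ((cyclotomic (p * q * r) ℤ).coeff n).natAbs ≤ lam := by
  obtain ⟨xm, ym, ym', δ, hδ, hδp, h, hrel, hi, hi'⟩ := coords hp hq hr hpr hqr hμ n
  rw [kap hp hq hr hpq hpr hqr hμ hμq hl hs n xm ym ym' h]
  have hcard : ∀ (f : ℕ → ℕ), Set.InjOn f (Finset.range p : Set ℕ) → (∀ m < p, f m < p) →
      (∑ m ∈ Finset.range p, (if f m < lam then (1 : ℤ) else 0)) ≤ lam ∧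
      (∑ m ∈ Finset.range p, (if lam ≤ f m then (1 : ℤ) else 0)) ≤ lam := by
    intro f hf hfp
    constructor
    · rw [Finset.sum_boole]
      have h1 : ((Finset.range p).filter fun m => f m < lam).card ≤ (Finset.range lam).card := by
        apply Finset.card_le_card_of_injOn f
        · intro m hm
          simp only [Finset.coe_filter, Set.mem_setOf_eq] at hm
          simpa using hm.2
        · intro m hm m' hm' he
          simp only [Finset.coe_filter, Set.mem_setOf_eq] at hm hm'
          exact hf (Finset.mem_coe.2 hm.1) (Finset.mem_coe.2 hm'.1) he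
      rw [Finset.card_range] at h1
      exact_mod_cast h1
    · rw [Finset.sum_boole]
      have h1 : ((Finset.range p).filter fun m => lam ≤ f m).card ≤ (Finset.Ico lam p).card := by
        apply Finset.card_le_card_of_injOn f
        · intro m hm
          simp only [Finset.coe_filter, Set.mem_setOf_eq] at hm
          simp only [Finset.coe_Ico, Set.mem_Ico]
          exact ⟨hm.2, hfp m (Finset.mem_range.1 hm.1)⟩
        · intro m hm m' hm' he
          simp only [Finset.coe_filter, Set.mem_setOf_eq] at hm hm'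
          exact hf (Finset.mem_coe.2 hm.1) (Finset.mem_coe.2 hm'.1) he
      rw [Nat.card_Ico] at h1
      have : ((Finset.range p).filter fun m => lam ≤ f m).card ≤ lam := by omega
      exact_mod_cast this
  have hc1 := hcard ym hi fun m hm => (h m hm).2.1
  have hc2 := hcard ym' hi' fun m hm => (h m hm).2.2.1
  have hA : ∑ m ∈ Finset.range p, (FF p q r μ lam n (xm m) (ym m) -
      FF p q r μ lam n (xm m) (ym' m)) ≤ lam := by
    have h1 : ∑ m ∈ Finset.range p, (FF p q r μ lam n (xm m) (ym m) -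
      FF p q r μ lam n (xm m) (ym' m)) ≤ ∑ m ∈ Finset.range p,
        (if δ ≤ lam then (if ym m < lam then (1 : ℤ) else 0) else
          (if lam ≤ ym' m then 1 else 0)) := by
      refine Finset.sum_le_sum fun m hm => ?_
      rw [Finset.mem_range] at hm
      exact col (h m hm).2.1 hδ hδp (hrel m hm)
    refine h1.trans ?_
    split_ifs
    · exact hc1.1
    · exact hc2.2
  have hB : ∑ m ∈ Finset.range p, (FF p q r μ lam n (xm m) (ym' m) -
      FF p q r μ lam n (xm m) (ym m)) ≤ lam := by
    have h1 : ∑ m ∈ Finset.range p, (FF p q r μ lam n (xm m) (ym' m) -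
      FF p q r μ lam n (xm m) (ym m)) ≤ ∑ m ∈ Finset.range p,
        (if p - δ ≤ lam then (if ym' m < lam then (1 : ℤ) else 0) else
          (if lam ≤ ym m then 1 else 0)) := by
      refine Finset.sum_le_sum fun m hm => ?_
      rw [Finset.mem_range] at hm
      exact col (h m hm).2.2.1 (by omega) (by omega) (by rcases hrel m hm with h | h <;> omega)
    refine h1.trans ?_
    split_ifs
    · exact hc2.1
    · exact hc1.2
  have hC : ∑ m ∈ Finset.range p, (FF p q r μ lam n (xm m) (ym' m) -
      FF p q r μ lam n (xm m) (ym m)) = - ∑ m ∈ Finset.range p, (FF p q r μ lam n (xm m) (ym m) -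
      FF p q r μ lam n (xm m) (ym' m)) := by
    rw [← Finset.sum_neg_distrib]
    exact Finset.sum_congr rfl fun m _ => by ring
  rw [hC] at hB
  omega

end Pool.Agent.Q277.TC
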